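import Pool.Agent.W_448kk_h94.KkD

/-! A maximal matching of the double near elements at an arbitrary level (MP_448cb3_co). -/

namespace Pool.Agent.GaussPoset.EK

set_option linter.unusedSectionVars false

open Finset Win

universe u

variable {P : Type u} [Fintype P] [PartialOrder P] [DecidableEq P] {r : ℕ}

lemma exists_part {α : Type*} [DecidableEq α] (A B : Finset α) :
    ∃ A' B' : Finset α, A' ⊆ A ∧ B' ⊆ B ∧ A'.card = min A.card B.card ∧
      B'.card = min A.card B.card := by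
  obtain ⟨A', hA, hA'⟩ := exists_subset_card_eq (min_le_left A.card B.card)
  obtain ⟨B', hB, hB'⟩ := exists_subset_card_eq (min_le_right A.card B.card)
  exact ⟨A', B', hA, hB, hA', hB'⟩

lemma not_LU {i : ℕ} {x : P} (h : x ∈ dbL P i) (h' : x ∈ dbU P i) : False := by
  rw [mem_dbL] at h
  rw [mem_dbU] at h'
  omega

/-- EXISTENCE of the matching at an arbitrary level: no lower and upper unmatched element have the
same sites, and the unmatched elements with the sites `T` count the defect of `T`. -/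
theorem exists_mat (P : Type u) [Fintype P] [PartialOrder P] [DecidableEq P] (i : ℕ) :
    ∃ (K : Finset P) (psi : P → P), Mat P i K psi ∧ K ⊆ dbL P i ∪ dbU P i ∧
      (∀ x ∈ K, ∀ y ∈ K, x ∈ dbL P i → y ∈ dbU P i → uc x ≠ dc y) ∧
      (∀ T, ((K ∩ CoreC_L i T).card : ℤ) = max (Df i T) 0) ∧
      (∀ T, ((K ∩ CoreC_U i T).card : ℤ) = max (-Df i T) 0) := by
  classical
  have hex : ∀ T : Finset P, ∃ A' B' : Finset P, A' ⊆ CoreC_L i T ∧ B' ⊆ CoreC_U i T ∧
      A'.card = min (CoreC_L i T).card (CoreC_U i T).card ∧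
      B'.card = min (CoreC_L i T).card (CoreC_U i T).card := fun T => exists_part _ _
  choose L U hL hU hLc hUc using hex
  let E : ∀ T : Finset P, L T ≃ U T := fun T =>
    Finset.equivOfCardEq ((hLc T).trans (hUc T).symm)
  let psi : P → P := fun x =>
    if h : x ∈ L (uc x) then ((E (uc x) ⟨x, h⟩ : U (uc x)) : P)
    else if h : x ∈ U (dc x) then (((E (dc x)).symm ⟨x, h⟩ : L (dc x)) : P)
    else x
  have hLm : ∀ x T, x ∈ L T → x ∈ dbL P i ∧ uc x = T := fun x T h => mem_CoreC_L.1 (hL T h)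
  have hUm : ∀ x T, x ∈ U T → x ∈ dbU P i ∧ dc x = T := fun x T h => mem_CoreC_U.1 (hU T h)
  have hlow : ∀ x, ∀ (h : x ∈ L (uc x)), psi x = ((E (uc x) ⟨x, h⟩ : U (uc x)) : P) := by
    intro x h
    exact dif_pos h
  have hupp : ∀ x, ∀ (h : x ∈ U (dc x)), psi x = (((E (dc x)).symm ⟨x, h⟩ : L (dc x)) : P) := by
    intro x h
    change (if h : x ∈ L (uc x) then ((E (uc x) ⟨x, h⟩ : U (uc x)) : P)
      else if h : x ∈ U (dc x) then (((E (dc x)).symm ⟨x, h⟩ : L (dc x)) : P)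
      else x) = _
    rw [dif_neg (fun h' => not_LU (hLm x _ h').1 (hUm x _ h).1), dif_pos h]
  let K : Finset P := (dbL P i).filter (fun x => x ∉ L (uc x)) ∪
    (dbU P i).filter (fun x => x ∉ U (dc x))
  have hK : ∀ x, x ∈ K ↔ (x ∈ dbL P i ∧ x ∉ L (uc x)) ∨ (x ∈ dbU P i ∧ x ∉ U (dc x)) := by
    intro x
    show x ∈ (dbL P i).filter (fun x => x ∉ L (uc x)) ∪
      (dbU P i).filter (fun x => x ∉ U (dc x)) ↔ _
    rw [mem_union, mem_filter, mem_filter]
  have hKL : ∀ x, x ∈ dbL P i → x ∉ K → x ∈ L (uc x) := by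
    intro x hx hxK
    by_contra h
    exact hxK ((hK x).2 (Or.inl ⟨hx, h⟩))
  have hKU : ∀ x, x ∈ dbU P i → x ∉ K → x ∈ U (dc x) := by
    intro x hx hxK
    by_contra h
    exact hxK ((hK x).2 (Or.inr ⟨hx, h⟩))
  have hLK : ∀ x T, x ∈ L T → x ∉ K := by
    intro x T hx h
    obtain ⟨h1, h2⟩ := hLm x T hx
    rcases (hK x).1 h with ⟨h3, h4⟩ | ⟨h3, h4⟩
    · rw [h2] at h4
      exact h4 hx
    · exact not_LU h1 h3
  have hUK : ∀ x T, x ∈ U T → x ∉ K := by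
    intro x T hx h
    obtain ⟨h1, h2⟩ := hUm x T hx
    rcases (hK x).1 h with ⟨h3, h4⟩ | ⟨h3, h4⟩
    · exact not_LU h3 h1
    · rw [h2] at h4
      exact h4 hx
  have low0 : ∀ x, x ∈ dbL P i → x ∉ K → psi x ∈ U (uc x) := by
    intro x hx hxK
    rw [hlow x (hKL x hx hxK)]
    exact (E (uc x) ⟨x, hKL x hx hxK⟩).2
  have upp0 : ∀ x, x ∈ dbU P i → x ∉ K → psi x ∈ L (dc x) := by
    intro x hx hxK
    rw [hupp x (hKU x hx hxK)]
    exact ((E (dc x)).symm ⟨x, hKU x hx hxK⟩).2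
  have key1 : ∀ (T : Finset P) (u : P) (hT : dc u = T) (h : u ∈ U (dc u))
      (h' : u ∈ U T), (((E (dc u)).symm ⟨u, h⟩ : L (dc u)) : P) =
        (((E T).symm ⟨u, h'⟩ : L T) : P) := by
    rintro T u rfl h h'
    rfl
  have key2 : ∀ (T : Finset P) (w : P) (hT : uc w = T) (h : w ∈ L (uc w))
      (h' : w ∈ L T), ((E (uc w) ⟨w, h⟩ : U (uc w)) : P) =
        ((E T ⟨w, h'⟩ : U T) : P) := by
    rintro T w rfl h h'
    rfl
  have hcL : ∀ T, K ∩ CoreC_L i T = CoreC_L i T \ L T := by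
    intro T
    ext x
    rw [mem_inter, mem_sdiff, mem_CoreC_L]
    constructor
    · rintro ⟨h1, h2, h3⟩
      exact ⟨⟨h2, h3⟩, fun h4 => hLK x T h4 h1⟩
    · rintro ⟨⟨h2, h3⟩, h4⟩
      refine ⟨(hK x).2 (Or.inl ⟨h2, ?_⟩), h2, h3⟩
      rw [h3]
      exact h4
  have hcU : ∀ T, K ∩ CoreC_U i T = CoreC_U i T \ U T := by
    intro T
    ext x
    rw [mem_inter, mem_sdiff, mem_CoreC_U]
    constructor
    · rintro ⟨h1, h2, h3⟩
      exact ⟨⟨h2, h3⟩, fun h4 => hUK x T h4 h1⟩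
    · rintro ⟨⟨h2, h3⟩, h4⟩
      refine ⟨(hK x).2 (Or.inr ⟨h2, ?_⟩), h2, h3⟩
      rw [h3]
      exact h4
  have hnL : ∀ T, ((K ∩ CoreC_L i T).card : ℤ) = max (Df i T) 0 := by
    intro T
    have h1 := card_sdiff_add_card_eq_card (hL T)
    have h2 := hLc T
    rw [hcL]
    unfold Df
    omega
  have hnU : ∀ T, ((K ∩ CoreC_U i T).card : ℤ) = max (-Df i T) 0 := by
    intro T
    have h1 := card_sdiff_add_card_eq_card (hU T)
    have h2 := hUc T
    rw [hcU]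
    unfold Df
    omega
  refine ⟨K, psi, ⟨?_, ?_, ?_⟩, ?_, ?_, hnL, hnU⟩
  · intro x hx hxK
    rw [Finset.mem_union] at hx
    rcases hx with hx | hx
    · have h0 := low0 x hx hxK
      have h1 := hUm _ _ h0
      refine ⟨?_, hUK _ _ h0⟩
      have h2 : psi x ∈ U (dc (psi x)) := by
        rw [h1.2]
        exact h0
      rw [hupp (psi x) h2, key1 (uc x) (psi x) h1.2 h2 h0]
      have h3 : (⟨psi x, h0⟩ : U (uc x)) = E (uc x) ⟨x, hKL x hx hxK⟩ :=
        Subtype.ext (hlow x (hKL x hx hxK))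
      rw [h3, Equiv.symm_apply_apply]
    · have h0 := upp0 x hx hxK
      have h1 := hLm _ _ h0
      refine ⟨?_, hLK _ _ h0⟩
      have h2 : psi x ∈ L (uc (psi x)) := by
        rw [h1.2]
        exact h0
      rw [hlow (psi x) h2, key2 (dc x) (psi x) h1.2 h2 h0]
      have h3 : (⟨psi x, h0⟩ : L (dc x)) = (E (dc x)).symm ⟨x, hKU x hx hxK⟩ :=
        Subtype.ext (hupp x (hKU x hx hxK))
      rw [h3, Equiv.apply_symm_apply]
  · intro x hx hxK
    exact hUm _ _ (low0 x hx hxK)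
  · intro x hx hxK
    exact hLm _ _ (upp0 x hx hxK)
  · intro x hx
    rw [mem_union]
    rcases (hK x).1 hx with h | h
    · exact Or.inl h.1
    · exact Or.inr h.1
  · intro x hx y hy hxL hyU hxy
    have h1 : x ∈ K ∩ CoreC_L i (uc x) := mem_inter.2 ⟨hx, mem_CoreC_L.2 ⟨hxL, rfl⟩⟩
    have h2 : y ∈ K ∩ CoreC_U i (uc x) := mem_inter.2 ⟨hy, mem_CoreC_U.2 ⟨hyU, hxy.symm⟩⟩
    have h3 := card_pos.2 ⟨x, h1⟩
    have h4 := card_pos.2 ⟨y, h2⟩
    have h5 := hnL (uc x)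
    have h6 := hnU (uc x)
    omega

/-- the counts for a pair of sites -/
theorem mat_pair (H : Gr P r) {i : ℕ} {K : Finset P}
    (hL : ∀ T, ((K ∩ CoreC_L i T).card : ℤ) = max (Df i T) 0)
    (hU : ∀ T, ((K ∩ CoreC_U i T).card : ℤ) = max (-Df i T) 0)
    {v v' : P} (hv : lev v = i) (hne : v ≠ v') :
    ((K ∩ CoreC_L i {v, v'}).card : ℤ) = max ((dcv v v' : ℤ) - (ucv v v' : ℤ)) 0 ∧
      ((K ∩ CoreC_U i {v, v'}).card : ℤ) = max ((ucv v v' : ℤ) - (dcv v v' : ℤ)) 0 ∧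
      ((K ∩ CoreC_L i {v, v'}).card : ℤ) - ((K ∩ CoreC_U i {v, v'}).card : ℤ) =
        (dcv v v' : ℤ) - (ucv v v' : ℤ) := by
  have h1 := hL {v, v'}
  have h2 := hU {v, v'}
  rw [Df_pair H hv hne] at h1 h2
  omega

end Pool.Agent.GaussPoset.EK
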