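import Pool.Agent.W_448e_h97.EB
import Pool.Agent.W_448e_h97.EC

/-! The unmatched double near elements of a component: stars (MP_448cb3_co). -/

namespace Pool.Agent.GaussPoset.EK

set_option linter.unusedSectionVars false

open Finset Win St Polynomial

universe u

variable {P : Type u} [Fintype P] [PartialOrder P] [DecidableEq P] {r i : ℕ}

variable {ι : Type*} [DecidableEq ι] {κ : P → ι}

variable {K : Finset P} {psi : P → P} {T T1 T2 : Finset P}

/-- a reduced matching: `exists_mat` -/
structure Red (P : Type u) [Fintype P] [PartialOrder P] [DecidableEq P] (i : ℕ) (K : Finset P)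
    (psi : P → P) : Prop where
  mat : Mat P i K psi
  sub : K ⊆ dbL P i ∪ dbU P i
  nL : ∀ T, ((K ∩ CoreC_L i T).card : ℤ) = max (Df i T) 0
  nU : ∀ T, ((K ∩ CoreC_U i T).card : ℤ) = max (-Df i T) 0

theorem exists_red (P : Type u) [Fintype P] [PartialOrder P] [DecidableEq P] (i : ℕ) :
    ∃ (K : Finset P) (psi : P → P), Red P i K psi := by
  obtain ⟨K, psi, h1, h2, _, h3, h4⟩ := exists_mat P i
  exact ⟨K, psi, h1, h2, h3, h4⟩

lemma Red.inv (R : Red P i K psi) {x y : P} (hx : x ∈ K) (hy : y ∈ K) (hxL : x ∈ dbL P i)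
    (hyU : y ∈ dbU P i) : uc x ≠ dc y := by
  intro hxy
  have h1 : x ∈ K ∩ CoreC_L i (uc x) := mem_inter.2 ⟨hx, mem_CoreC_L.2 ⟨hxL, rfl⟩⟩
  have h2 : y ∈ K ∩ CoreC_U i (uc x) := mem_inter.2 ⟨hy, mem_CoreC_U.2 ⟨hyU, hxy.symm⟩⟩
  have h3 := card_pos.2 ⟨x, h1⟩
  have h4 := card_pos.2 ⟨y, h2⟩
  have h5 := R.nL (uc x)
  have h6 := R.nU (uc x)
  omega

/-- the unmatched elements with the sites `T` -/
lemma Red.fib (R : Red P i K psi) (T : Finset P) :
    ((K.filter (fun x => ns i x = T)).card : ℤ) = |Df i T| := by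
  have h1 : K.filter (fun x => ns i x = T) = (K ∩ CoreC_L i T) ∪ (K ∩ CoreC_U i T) := by
    ext x
    rw [mem_filter, mem_union, mem_inter, mem_inter, mem_CoreC_L, mem_CoreC_U]
    constructor
    · rintro ⟨h1, h2⟩
      rcases mem_union.1 (R.sub h1) with h | h
      · rw [ns_L h] at h2
        exact Or.inl ⟨h1, h, h2⟩
      · rw [ns_U h] at h2
        exact Or.inr ⟨h1, h, h2⟩
    · rintro (⟨h1, h, h2⟩ | ⟨h1, h, h2⟩)
      · exact ⟨h1, by rw [ns_L h]; exact h2⟩
      · exact ⟨h1, by rw [ns_U h]; exact h2⟩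
  have h2 : Disjoint (K ∩ CoreC_L i T) (K ∩ CoreC_U i T) := by
    rw [disjoint_left]
    intro x hx hy
    rw [mem_inter, mem_CoreC_L] at hx
    rw [mem_inter, mem_CoreC_U] at hy
    exact not_LU hx.2.1 hy.2.1
  rw [h1, card_union_of_disjoint h2, Nat.cast_add, R.nL, R.nU]
  rcases le_total 0 (Df i T) with h | h
  · rw [abs_of_nonneg h]
    omega
  · rw [abs_of_nonpos h]
    omega

lemma Red.Df_ne (R : Red P i K psi) {x : P} (hx : x ∈ K) : Df i (ns i x) ≠ 0 := by
  intro h
  have h1 := R.fib (ns i x)
  rw [h, abs_zero, Nat.cast_eq_zero, card_eq_zero] at h1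
  exact notMem_empty x (h1 ▸ mem_filter.2 ⟨hx, rfl⟩)

/-- the sites of a component -/
lemma mem_sites {a : ι} (hκ : Split (i + 1) κ) {v : P} :
    v ∈ st i (cext (i + 1) κ a) ↔ lev v = i ∧ κ v = a := by
  rw [mem_st]
  constructor
  · rintro ⟨h1, h2⟩
    exact ⟨h2, (mem_cext.1 h1) v le_rfl (by omega)⟩
  · rintro ⟨h1, h2⟩
    exact ⟨mem_cext_of_le hκ (by omega) h2, h1⟩

lemma sites_eq {a : ι} (hκ : Split (i + 1) κ) :
    st i (cext (i + 1) κ a) = (lv P i).filter (fun v => κ v = a) := by
  ext v
  rw [mem_sites hκ, mem_filter, mem_lv]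

lemma ns_sites (H : Gr P r) {a : ι} (hκ : Split (i + 1) κ) {x : P} (hx : x ∈ dbL P i ∪ dbU P i)
    (ha : κ x = a) : ns i x ⊆ st i (cext (i + 1) κ a) := by
  intro v hv
  rw [mem_sites hκ]
  exact ⟨mem_lv.1 (ns_sub H hx hv), (kap_ns H hκ hx hv).trans ha⟩

/-- the number of unmatched elements of a component -/
lemma Red.card_comp (R : Red P i K psi) (H : Gr P r) (hκ : Split (i + 1) κ) (a : ι) :
    ((K.filter (fun x => κ x = a)).card : ℤ) =
      ∑ T ∈ (st i (cext (i + 1) κ a)).powersetCard 2, |Df i T| := by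
  have h1 : ∀ x ∈ K.filter (fun x => κ x = a),
      ns i x ∈ (st i (cext (i + 1) κ a)).powersetCard 2 := by
    intro x hx
    rw [mem_filter] at hx
    rw [mem_powersetCard]
    exact ⟨ns_sites H hκ (R.sub hx.1) hx.2, ns_card (R.sub hx.1)⟩
  rw [card_eq_sum_card_fiberwise h1, Nat.cast_sum]
  refine sum_congr rfl (fun T hT => ?_)
  rw [← R.fib T, filter_filter]
  congr 2
  refine filter_congr (fun x hx => ?_)
  constructor
  · exact fun h => h.2
  · intro h
    refine ⟨?_, h⟩
    obtain ⟨v, hv⟩ := ns_ne (R.sub hx)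
    rw [← kap_ns H hκ (R.sub hx) hv]
    rw [h] at hv
    exact ((mem_sites hκ).1 ((mem_powersetCard.1 hT).1 hv)).2

/-- the hypothesis on a component -/
def Small (i : ℕ) (κ : P → ι) (a : ι) : Prop :=
  (st i (cext (i + 1) κ a)).card ≤ 3 ∨
    ∑ T ∈ (st i (cext (i + 1) κ a)).powersetCard 2, |Df i T| ≤ 2

lemma sgn_cases {x : P} (hx : x ∈ dbL P i ∪ dbU P i) : sgn i x = 1 ∨ sgn i x = -1 := by
  rcases mem_union.1 hx with h | h
  · exact Or.inl (sgn_low h)
  · exact Or.inr (sgn_upp h)

/-- two unmatched elements of a small component share a site -/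
theorem Red.same_of_small (R : Red P i K psi) (H : Gr P r) (hi : i ≤ r) (hκ : Split (i + 1) κ)
    {a : ι} (hs : Small i κ a) {x y : P} (hx : x ∈ K) (hy : y ∈ K) (hxa : κ x = a)
    (hya : κ y = a) : ¬ Disjoint (ns i x) (ns i y) := by
  classical
  intro hd
  have hxV := ns_sites H hκ (R.sub hx) hxa
  have hyV := ns_sites H hκ (R.sub hy) hya
  have hcx := ns_card (R.sub hx)
  have hcy := ns_card (R.sub hy)
  rcases hs with hs | hs
  · have h1 := card_le_card (union_subset hxV hyV)
    rw [card_union_of_disjoint hd, hcx, hcy] at h1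
    omega
  · have hne : x ≠ y := by
      rintro rfl
      rw [disjoint_self] at hd
      rw [show ns i x = ∅ from hd, card_empty] at hcx
      omega
    have hK2 := R.card_comp H hκ a
    have hsub : ({x, y} : Finset P) ⊆ K.filter (fun x => κ x = a) := by
      intro z hz
      rw [mem_insert, mem_singleton] at hz
      rcases hz with rfl | rfl
      · exact mem_filter.2 ⟨hx, hxa⟩
      · exact mem_filter.2 ⟨hy, hya⟩
    have hEq : ({x, y} : Finset P) = K.filter (fun x => κ x = a) := by
      refine eq_of_subset_of_card_le hsub ?_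
      rw [card_pair hne]
      omega
    have hsum := sum_K H hi hκ R.mat R.sub a
    rw [← hEq, sum_pair hne] at hsum
    have hprod : sgn i x * sgn i y = -1 := by
      rcases sgn_cases (R.sub hx) with h1 | h1 <;> rcases sgn_cases (R.sub hy) with h2 | h2
      · rw [h1, h2] at hsum
        norm_num at hsum
      · simp [h1, h2]
      · simp [h1, h2]
      · rw [h1, h2] at hsum
        norm_num at hsum
    have hT : ns i x ≠ ns i y := by
      intro h
      rw [h, disjoint_self] at hd
      rw [show ns i y = ∅ from hd, card_empty] at hcy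
      omega
    -- the defects
    have hfib : ∀ T ∈ (st i (cext (i + 1) κ a)).powersetCard 2,
        ∑ z ∈ K.filter (fun z => ns i z = T), sgn i z = Df i T := by
      intro T hTm
      have h1 : K.filter (fun x => ns i x = T) = (K ∩ CoreC_L i T) ∪ (K ∩ CoreC_U i T) := by
        ext x
        rw [mem_filter, mem_union, mem_inter, mem_inter, mem_CoreC_L, mem_CoreC_U]
        constructor
        · rintro ⟨h1, h2⟩
          rcases mem_union.1 (R.sub h1) with h | h
          · rw [ns_L h] at h2
            exact Or.inl ⟨h1, h, h2⟩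
          · rw [ns_U h] at h2
            exact Or.inr ⟨h1, h, h2⟩
        · rintro (⟨h1, h, h2⟩ | ⟨h1, h, h2⟩)
          · exact ⟨h1, by rw [ns_L h]; exact h2⟩
          · exact ⟨h1, by rw [ns_U h]; exact h2⟩
      have h2 : Disjoint (K ∩ CoreC_L i T) (K ∩ CoreC_U i T) := by
        rw [disjoint_left]
        intro x hx hy
        rw [mem_inter, mem_CoreC_L] at hx
        rw [mem_inter, mem_CoreC_U] at hy
        exact not_LU hx.2.1 hy.2.1
      have h3 : ∑ z ∈ K ∩ CoreC_L i T, sgn i z = ∑ z ∈ K ∩ CoreC_L i T, 1 := by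
        refine sum_congr rfl (fun z hz => ?_)
        exact sgn_low (mem_CoreC_L.1 (mem_inter.1 hz).2).1
      have h4 : ∑ z ∈ K ∩ CoreC_U i T, sgn i z = ∑ z ∈ K ∩ CoreC_U i T, -1 := by
        refine sum_congr rfl (fun z hz => ?_)
        exact sgn_upp (mem_CoreC_U.1 (mem_inter.1 hz).2).1
      rw [h1, sum_union h2, h3, h4]
      have h5 := R.nL T
      have h6 := R.nU T
      simp only [sum_const, nsmul_eq_mul, mul_one]
      omega
    have hDf : ∀ T ∈ (st i (cext (i + 1) κ a)).powersetCard 2, T ≠ ns i x → T ≠ ns i y →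
        Df i T = 0 := by
      intro T hTm h1 h2
      rw [← hfib T hTm]
      have h3 : K.filter (fun z => ns i z = T) = ∅ := by
        rw [filter_eq_empty_iff]
        intro z hz hzT
        have h4 : z ∈ K.filter (fun x => κ x = a) := by
          rw [mem_filter]
          refine ⟨hz, ?_⟩
          obtain ⟨v, hv⟩ := ns_ne (R.sub hz)
          rw [← kap_ns H hκ (R.sub hz) hv]
          rw [hzT] at hv
          exact ((mem_sites hκ).1 ((mem_powersetCard.1 hTm).1 hv)).2
        rw [← hEq, mem_insert, mem_singleton] at h4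
        rcases h4 with rfl | rfl
        · exact h1 hzT.symm
        · exact h2 hzT.symm
      rw [h3, sum_empty]
    have hone : ∀ z ∈ K, κ z = a → (∀ w ∈ K, κ w = a → ns i w = ns i z → w = z) →
        Df i (ns i z) = sgn i z := by
      intro z hz hza huniq
      rw [← hfib (ns i z) (mem_powersetCard.2 ⟨ns_sites H hκ (R.sub hz) hza, ns_card (R.sub hz)⟩)]
      have h3 : K.filter (fun w => ns i w = ns i z) = {z} := by
        ext w
        rw [mem_filter, mem_singleton]
        constructor
        · rintro ⟨h4, h5⟩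
          refine huniq w h4 ?_ h5
          obtain ⟨v, hv⟩ := ns_ne (R.sub h4)
          rw [← kap_ns H hκ (R.sub h4) hv]
          rw [h5] at hv
          exact (kap_ns H hκ (R.sub hz) hv).trans hza
        · rintro rfl
          exact ⟨hz, rfl⟩
      rw [h3, sum_singleton]
    have hmemK : ∀ w ∈ K, κ w = a → w = x ∨ w = y := by
      intro w hw hwa
      have h4 : w ∈ K.filter (fun x => κ x = a) := mem_filter.2 ⟨hw, hwa⟩
      rw [← hEq, mem_insert, mem_singleton] at h4
      exact h4
    have hDx : Df i (ns i x) = sgn i x := by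
      refine hone x hx hxa (fun w hw hwa h => ?_)
      rcases hmemK w hw hwa with h1 | h1
      · exact h1
      · rw [h1] at h
        exact absurd h.symm hT
    have hDy : Df i (ns i y) = sgn i y := by
      refine hone y hy hya (fun w hw hwa h => ?_)
      rcases hmemK w hw hwa with h1 | h1
      · rw [h1] at h
        exact absurd h hT
      · exact h1
    have hmp := mp_comp H hi hκ a
    rw [← sites_eq hκ] at hmp
    have hc : (mp (Df i) (st i (cext (i + 1) κ a))).coeff 2 = 0 := by
      rw [hmp, coeff_one, if_neg (by norm_num)]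
    rw [coeff_mp, sum_eq_single ({ns i x, ns i y} : Finset (Finset P))] at hc
    · rw [prod_pair hT, hDx, hDy, hprod] at hc
      norm_num at hc
    · intro M hM hMne
      rw [mem_filter, mem_MS] at hM
      obtain ⟨⟨h1, _⟩, h2⟩ := hM
      have h3 : ¬ M ⊆ {ns i x, ns i y} := by
        intro h3
        refine hMne (eq_of_subset_of_card_le h3 ?_)
        rw [card_pair hT, h2]
      rw [not_subset] at h3
      obtain ⟨T, hTM, hTn⟩ := h3
      rw [mem_insert, mem_singleton, not_or] at hTn
      exact prod_eq_zero hTM (hDf T (mem_powersetCard.2 (h1 T hTM)) hTn.1 hTn.2)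
    · intro hn
      exfalso
      apply hn
      rw [mem_filter, mem_MS]
      refine ⟨⟨?_, ?_⟩, card_pair hT⟩
      · intro T hT'
        rw [mem_insert, mem_singleton] at hT'
        rcases hT' with rfl | rfl
        · exact ⟨hxV, hcx⟩
        · exact ⟨hyV, hcy⟩
      · intro S hS T hT' hST
        rw [mem_coe, mem_insert, mem_singleton] at hS hT'
        rcases hS with rfl | rfl <;> rcases hT' with rfl | rfl
        · exact absurd rfl hST
        · exact hd
        · exact hd.symm
        · exact absurd rfl hST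

/-- of three unmatched elements of a small component with a common site two have the same sites -/
theorem Red.three_of_small (R : Red P i K psi) (H : Gr P r) (hκ : Split (i + 1) κ)
    {a : ι} (hs : Small i κ a) {x y z : P} (hx : x ∈ K) (hy : y ∈ K) (hz : z ∈ K) (hxa : κ x = a)
    (hya : κ y = a) (hza : κ z = a) (hxy : x ≠ y) (hxz : x ≠ z) (hyz : y ≠ z) {v : P}
    (hvx : v ∈ ns i x) (hvy : v ∈ ns i y) (hvz : v ∈ ns i z) :
    ns i x = ns i y ∨ ns i x = ns i z ∨ ns i y = ns i z := by
  classical
  have hxV := ns_sites H hκ (R.sub hx) hxa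
  have hyV := ns_sites H hκ (R.sub hy) hya
  have hzV := ns_sites H hκ (R.sub hz) hza
  have hcx := ns_card (R.sub hx)
  have hcy := ns_card (R.sub hy)
  have hcz := ns_card (R.sub hz)
  rcases hs with hs | hs
  · obtain ⟨x', hx'⟩ : ∃ x', (ns i x).erase v = {x'} :=
      card_eq_one.1 (by rw [card_erase_of_mem hvx, hcx])
    obtain ⟨y', hy'⟩ : ∃ y', (ns i y).erase v = {y'} :=
      card_eq_one.1 (by rw [card_erase_of_mem hvy, hcy])
    obtain ⟨z', hz'⟩ : ∃ z', (ns i z).erase v = {z'} :=
      card_eq_one.1 (by rw [card_erase_of_mem hvz, hcz])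
    have key : ∀ p q : P, ∀ p' : P, v ∈ ns i p → v ∈ ns i q → (ns i p).erase v = {p'} →
        (ns i q).erase v = {p'} → ns i p = ns i q := by
      intro p q p' h1 h2 h3 h4
      rw [← insert_erase h1, ← insert_erase h2, h3, h4]
    by_contra hcon
    rw [not_or, not_or] at hcon
    obtain ⟨n1, n2, n3⟩ := hcon
    have m1 : x' ≠ y' := by
      rintro rfl
      exact n1 (key x y x' hvx hvy hx' hy')
    have m2 : x' ≠ z' := by
      rintro rfl
      exact n2 (key x z x' hvx hvz hx' hz')
    have m3 : y' ≠ z' := by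
      rintro rfl
      exact n3 (key y z y' hvy hvz hy' hz')
    have e1 : ∀ p p' : P, (ns i p).erase v = {p'} → p' ≠ v ∧ p' ∈ ns i p := by
      intro p p' h
      have h1 : p' ∈ (ns i p).erase v := by
        rw [h]
        exact mem_singleton_self _
      exact mem_erase.1 h1
    have hsub : ({v, x', y', z'} : Finset P) ⊆ st i (cext (i + 1) κ a) := by
      intro w hw
      rw [mem_insert, mem_insert, mem_insert, mem_singleton] at hw
      rcases hw with rfl | rfl | rfl | rfl
      · exact hxV hvx
      · exact hxV (e1 x _ hx').2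
      · exact hyV (e1 y _ hy').2
      · exact hzV (e1 z _ hz').2
    have h4 := card_le_card hsub
    have h5 : ({v, x', y', z'} : Finset P).card = 4 := by
      rw [card_insert_of_notMem, card_insert_of_notMem, card_insert_of_notMem, card_singleton]
      · rw [mem_singleton]
        exact m3
      · rw [mem_insert, mem_singleton, not_or]
        exact ⟨m1, m2⟩
      · rw [mem_insert, mem_insert, mem_singleton, not_or, not_or]
        exact ⟨(e1 x _ hx').1.symm, (e1 y _ hy').1.symm, (e1 z _ hz').1.symm⟩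
    omega
  · exfalso
    have hK2 := R.card_comp H hκ a
    have hsub : ({x, y, z} : Finset P) ⊆ K.filter (fun x => κ x = a) := by
      intro w hw
      rw [mem_insert, mem_insert, mem_singleton] at hw
      rcases hw with rfl | rfl | rfl
      · exact mem_filter.2 ⟨hx, hxa⟩
      · exact mem_filter.2 ⟨hy, hya⟩
      · exact mem_filter.2 ⟨hz, hza⟩
    have h4 := card_le_card hsub
    have h5 : ({x, y, z} : Finset P).card = 3 := by
      rw [card_insert_of_notMem, card_insert_of_notMem, card_singleton]
      · rw [mem_singleton]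
        exact hyz
      · rw [mem_insert, mem_singleton, not_or]
        exact ⟨hxy, hxz⟩
    omega

/-- the hypotheses `HK` for small components -/
theorem Red.HK_of_small (R : Red P i K psi) (H : Gr P r) (hi : i ≤ r) (hκ : Split (i + 1) κ)
    (hs : ∀ a, Small i κ a) : HK r i κ K psi :=
  ⟨H, hi, hκ, R.mat, R.sub, fun _ hx y hy hxy =>
    R.same_of_small H hi hκ (hs (κ y)) hx hy hxy rfl⟩

end Pool.Agent.GaussPoset.EK
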