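import Pool.Agent.W_448e_h97.EH

/-! Case B: the rows of level `j`, all facts; the exceptional pattern with seven sites is impossible
(MP_448cb3_co). -/

namespace Pool.Agent.GaussPoset.EK

set_option linter.unusedSectionVars false

open Finset Win St Polynomial Wd

universe u

variable {P : Type u} [Fintype P] [PartialOrder P] [DecidableEq P] {r i j : ℕ}

variable {m : ℕ} {x : ℕ → P} {c : ℕ → ℤ} {β : ℤ} {t : Tops P}

/-- a row of case B -/
structure RowB (P : Type u) [Fintype P] [PartialOrder P] [DecidableEq P] (j : ℕ) (t : Tops P)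
    (m : ℕ) (x : ℕ → P) (c : ℕ → ℤ) (β : ℤ) : Prop where
  row : Row j (topOf : P → Tops P) t m x c β
  pat : PcPat m c β
  ends : β ≠ 0 → (uc (x 0)).card = 1 ∧ (uc (x m)).card = 1
  lost : ∀ a, 0 < a → a < m → c (a - 1) = -1 → c a = -1 → (pen (x a)).card = 1
  pen0 : ∀ a, 2 ≤ a → a + 2 ≤ m → pen (x a) = ∅
  len : m ≤ j
  ucv_x : ∀ a b, a < b → b ≤ m → ucv (x a) (x b) = if b = a + 1 then 1 else 0
  pu : ∀ a, 1 ≤ a → a + 2 ≤ m → ∀ u, x a ⋖ u → x (a + 1) ⋖ u → ∀ z, u ⋖ z → (dc z).card = 2

theorem NJ.rowB (h : NJ P r j) (hj : 2 ≤ j) (t : Tops P) :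
    ∃ (m : ℕ) (x : ℕ → P) (c : ℕ → ℤ) (β : ℤ), RowB P j t m x c β := by
  obtain ⟨lo, hi, e, C⟩ := Cp.comp_exists h.g.H t.2 h.g.hr h.g.good
  obtain ⟨c, β, h1, h2, h3, h4⟩ := h.pieces hj C
  have hlo := C.lo_le j le_rfl
  have htop : ∀ v : P, v ≤ (t : P) → lev v = j → topOf v = t := by
    intro v hv hl
    refine Subtype.ext ?_
    exact Hul.top_unique (h.nj (by omega)) (topOf v).2 t.2 (le_topOf v) hv
  have hlen : hi j ≤ j := Cp.Comp.hi_le C le_rfl
  obtain ⟨n, rfl⟩ : ∃ n, j = n + 2 := ⟨j - 2, by omega⟩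
  have s1 := C.lo_step n (by omega)
  have s2 := C.lo_step (n + 1) (by omega)
  have s3 := C.hi_step n (by omega)
  have s4 := C.hi_step (n + 1) (by omega)
  have s2' : lo (n + 2) = lo (n + 1) ∨ lo (n + 2) = lo (n + 1) + 1 := s2
  have s4' : hi (n + 2) = hi (n + 1) ∨ hi (n + 2) = hi (n + 1) + 1 := s4
  clear s2 s4
  have S : Rw P (n + 2) t (hi (n + 2) - lo (n + 2)) (fun a => e (n + 2) (lo (n + 2) + a)) :=
    C.toWin.rw_row (i := n + 1) h.g (by omega) t.2
  have hcov : ∀ s s', lo (n + 2) ≤ s → s ≤ hi (n + 2) → lo (n + 1) ≤ s' → s' ≤ hi (n + 1) →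
      (e (n + 2) s ⋖ e (n + 1) s' ↔ s' = s ∨ s' + 1 = s) := fun s s' =>
    C.cov (n + 1) s s' (by omega)
  have hrow : Row (n + 2) (topOf : P → Tops P) t (hi (n + 2) - lo (n + 2))
      (fun a => e (n + 2) (lo (n + 2) + a)) c β := by
    refine ⟨?_, ?_, ?_, ?_, ?_⟩
    · exact fun k hk => C.lev_e (n + 2) (lo (n + 2) + k) le_rfl (by omega) (by omega)
    · intro k l hk hl hkl
      have := C.inj (n + 2) (lo (n + 2) + k) (lo (n + 2) + l) le_rfl (by omega) (by omega)
        (by omega) (by omega) hkl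
      omega
    · intro k hk
      exact htop _ (C.le_t (n + 2) (lo (n + 2) + k) le_rfl (by omega) (by omega))
        (C.lev_e (n + 2) (lo (n + 2) + k) le_rfl (by omega) (by omega))
    · intro v hv hvt
      have hvle : v ≤ (t : P) := by
        rw [← hvt]
        exact le_topOf v
      obtain ⟨s, s1, s2, s3⟩ := C.surj v hvle (by omega)
      rw [hv] at s1 s2 s3
      exact ⟨s - lo (n + 2), by omega, by
        show e (n + 2) (lo (n + 2) + (s - lo (n + 2))) = v
        rw [show lo (n + 2) + (s - lo (n + 2)) = s by omega]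
        exact s3⟩
    · intro k l hkl hl
      have hne : e (n + 2) (lo (n + 2) + k) ≠ e (n + 2) (lo (n + 2) + l) := by
        intro h5
        have := C.inj (n + 2) _ _ le_rfl (by omega) (by omega) (by omega) (by omega) h5
        omega
      rw [Df_pair h.g.H (C.lev_e (n + 2) (lo (n + 2) + k) le_rfl (by omega) (by omega)) hne,
        h2 (lo (n + 2) + k) (lo (n + 2) + l) (by omega) (by omega) (by omega)]
      by_cases h5 : l = k + 1
      · rw [if_pos (by omega), if_pos h5, show lo (n + 2) + k - lo (n + 2) = k by omega]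
      · rw [if_neg (by omega), if_neg h5]
        by_cases h6 : k = 0 ∧ l = hi (n + 2) - lo (n + 2)
        · rw [if_pos (by omega), if_pos h6]
        · rw [if_neg (by omega), if_neg h6]
  refine ⟨hi (n + 2) - lo (n + 2), fun a => e (n + 2) (lo (n + 2) + a), c, β, hrow, h1, ?_, ?_,
    ?_, ?_, ?_, ?_⟩
  · intro hb
    have h5 := h3 hb
    show (uc (e (n + 2) (lo (n + 2) + 0))).card = 1 ∧
      (uc (e (n + 2) (lo (n + 2) + (hi (n + 2) - lo (n + 2))))).card = 1
    rw [add_zero, show lo (n + 2) + (hi (n + 2) - lo (n + 2)) = hi (n + 2) by omega]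
    exact h5
  · intro a ha1 ha2 ha3 ha4
    refine h4 (lo (n + 2) + a) (by omega) (by omega) ?_ ?_
    · rw [show lo (n + 2) + a - 1 - lo (n + 2) = a - 1 by omega]
      exact ha3
    · rw [show lo (n + 2) + a - lo (n + 2) = a by omega]
      exact ha4
  · intro a ha1 ha2
    have h0 : 1 ≤ n := by omega
    exact h.pen_three h0 le_rfl C (a := lo (n + 2) + a) (by omega) (by omega)
  · omega
  · intro a b hab hb
    have h5 := S.ucv_x a b (by omega) hb (by omega)
    show ucv (e (n + 2) (lo (n + 2) + a)) (e (n + 2) (lo (n + 2) + b)) = _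
    rw [h5]
    by_cases h6 : b = a + 1
    · rw [if_pos (Or.inl h6.symm), if_pos h6]
    · rw [if_neg (by omega), if_neg h6]
  · intro a ha1 ha2 u hu1 hu2 z hz
    -- coordinates of `u`
    have lu := lev_cov h.g.H hu1
    have lz := lev_cov h.g.H hz
    have lx : lev (e (n + 2) (lo (n + 2) + a)) = n + 2 :=
      C.lev_e (n + 2) _ le_rfl (by omega) (by omega)
    have lx' : lev (e (n + 2) (lo (n + 2) + (a + 1))) = n + 2 :=
      C.lev_e (n + 2) _ le_rfl (by omega) (by omega)
    have hxt := C.le_t (n + 2) (lo (n + 2) + a) le_rfl (by omega) (by omega)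
    have hut : u ≤ (t : P) := Cp.up_le h.g.H h.g.good t.2 hxt (by omega) hu1.le
    have hzt : z ≤ (t : P) := Cp.up_le h.g.H h.g.good t.2 hut (by omega) hz.le
    obtain ⟨s, q1, q2, q3⟩ := C.surj u hut (by omega)
    have lu' : lev u = n + 1 := by omega
    rw [lu'] at q1 q2 q3
    obtain ⟨s', q4, q5, q6⟩ := C.surj z hzt (by omega)
    have lz' : lev z = n := by omega
    rw [lz'] at q4 q5 q6
    subst q3
    subst q6
    have c1 := (hcov (lo (n + 2) + a) s (by omega) (by omega) q1 q2).1 hu1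
    have c2 := (hcov (lo (n + 2) + (a + 1)) s (by omega) (by omega) q1 q2).1 hu2
    have hs : s = lo (n + 2) + a := by omega
    have c3 := (C.cov n s s' (by omega) q1 q2 q4 q5).1 hz
    have hd1 : e (n + 1) s' ⋖ e n s' :=
      (C.cov n s' s' (by omega) (by omega) (by omega) q4 q5).2 (Or.inl rfl)
    have hd2 : e (n + 1) (s' + 1) ⋖ e n s' :=
      (C.cov n (s' + 1) s' (by omega) (by omega) (by omega) q4 q5).2 (Or.inr rfl)
    have hne : e (n + 1) s' ≠ e (n + 1) (s' + 1) := by
      intro h5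
      have := C.inj (n + 1) _ _ (by omega) (by omega) (by omega) (by omega) (by omega) h5
      omega
    have h6 : ({e (n + 1) s', e (n + 1) (s' + 1)} : Finset P) ⊆ dc (e n s') := by
      intro w hw
      rw [mem_insert, mem_singleton] at hw
      rcases hw with rfl | rfl
      · exact mem_dc.2 hd1
      · exact mem_dc.2 hd2
    have h7 := card_le_card h6
    rw [card_pair hne] at h7
    have h8 := dc_card_le h.g.H (e n s')
    omega

/-- the pattern with seven sites is impossible -/
theorem RowB.not8 (R : RowB P j t m x c β) (h8 : Pat8 m c β) : False := by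
  obtain ⟨hm, _, h0, h1, h4, h5, h6⟩ := h8
  subst hm
  rcases h6 with ⟨h2, _⟩ | ⟨_, h3⟩
  · have e1 := R.lost 2 (by omega) (by omega) h1 h2
    have e2 := R.pen0 2 (by omega) (by omega)
    rw [e2, card_empty] at e1
    exact absurd e1 (by norm_num)
  · have e1 := R.lost 4 (by omega) (by omega) h3 h4
    have e2 := R.pen0 4 (by omega) (by omega)
    rw [e2, card_empty] at e1
    exact absurd e1 (by norm_num)

/-- every component is small or has two stars -/
theorem RowB.small (R : RowB P j t m x c β) (H : Gr P r)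
    (hκ : Split (j + 1) (topOf : P → Tops P)) :
    Small j (topOf : P → Tops P) t ∨ Pat6 m c β := by
  rcases R.row.small H hκ R.pat with h1 | h1 | h1
  · exact Or.inl h1
  · exact Or.inr h1
  · exact (R.not8 h1).elim

end Pool.Agent.GaussPoset.EK
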