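import Mathlib

/-! Families of pairwise disjoint sets with at most one member in every class (MP_448cb3_co). -/

namespace Pool.Agent.GaussPoset.EK

set_option linter.unusedSectionVars false

open Finset Polynomial

section gen

variable {α β ι : Type*} [DecidableEq α] [DecidableEq β] [DecidableEq ι]

/-- the sets of `M` are pairwise disjoint and avoid `T` -/
def Avd (N : α → Finset β) (T : Finset β) (M : Finset α) : Prop :=
  (∀ x ∈ M, ∀ y ∈ M, x ≠ y → Disjoint (N x) (N y)) ∧ ∀ x ∈ M, Disjoint (N x) T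

lemma avd_empty (N : α → Finset β) (T : Finset β) : Avd N T ∅ :=
  ⟨fun x hx => absurd hx (notMem_empty x), fun x hx => absurd hx (notMem_empty x)⟩

lemma avd_sub {N : α → Finset β} {T : Finset β} {M M' : Finset α} (h : Avd N T M) (hM : M' ⊆ M) :
    Avd N T M' :=
  ⟨fun x hx y hy => h.1 x (hM hx) y (hM hy), fun x hx => h.2 x (hM hx)⟩

open Classical in
/-- the sum over the avoiding families with `k` members -/
noncomputable def E (N : α → Finset β) (s : α → ℤ) (K : Finset α) (T : Finset β) (k : ℕ) : ℤ :=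
  ∑ M ∈ (K.powersetCard k).filter (Avd N T), ∏ x ∈ M, s x

open Classical in
/-- the generating polynomial of the avoiding families -/
noncomputable def G (N : α → Finset β) (s : α → ℤ) (K : Finset α) (T : Finset β) : ℤ[X] :=
  ∑ M ∈ K.powerset.filter (Avd N T), ∏ x ∈ M, (C (s x) * X)

open Classical in
/-- the sum over the members of the class `a` which avoid `T` -/
noncomputable def ss (N : α → Finset β) (s : α → ℤ) (κ : α → ι) (K : Finset α) (T : Finset β)
    (a : ι) : ℤ :=
  ∑ x ∈ K.filter (fun x => κ x = a ∧ Disjoint (N x) T), s x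

variable {N : α → Finset β} {s : α → ℤ} {κ : α → ι} {K : Finset α} {T : Finset β} {I : Finset ι}

lemma coeff_G (k : ℕ) : (G N s K T).coeff k = E N s K T k := by
  classical
  unfold G E
  rw [finsetSum_coeff]
  have h0 : (K.powersetCard k).filter (Avd N T) =
      (K.powerset.filter (Avd N T)).filter (fun M => M.card = k) := by
    ext M
    simp only [mem_filter, mem_powersetCard, mem_powerset]
    tauto
  rw [h0]
  symm
  rw [sum_filter]
  symm
  refine sum_congr rfl (fun M _ => ?_)
  have h1 : ∏ x ∈ M, (C (s x) * X) = C (∏ x ∈ M, s x) * (X : ℤ[X]) ^ M.card := by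
    rw [prod_mul_distrib, prod_const, map_prod]
  rw [h1, coeff_C_mul, coeff_X_pow]
  by_cases h : M.card = k
  · simp [h]
  · have h' : ¬ k = M.card := fun h2 => h h2.symm
    simp [h, h']

open Classical in
/-- families which contain `x` -/
lemma sum_mem {x : α} {a : ι} (hx : x ∈ K) (ha : κ x = a)
    (hsame : ∀ x ∈ K, ∀ y ∈ K, κ x = κ y → ¬ Disjoint (N x) (N y))
    (hdiff : ∀ x ∈ K, ∀ y ∈ K, κ x ≠ κ y → Disjoint (N x) (N y)) :
    ∑ M ∈ (K.powerset.filter (Avd N T)).filter (fun M => x ∈ M), ∏ y ∈ M, (C (s y) * X) =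
      (if Disjoint (N x) T then C (s x) * X else 0) * G N s (K.filter (fun y => κ y ≠ a)) T := by
  by_cases hT : Disjoint (N x) T
  · rw [if_pos hT]
    unfold G
    rw [mul_sum]
    symm
    refine sum_nbij' (fun M => insert x M) (fun M => M.erase x) ?_ ?_ ?_ ?_ ?_
    · intro M hM
      rw [mem_filter, mem_powerset] at hM
      rw [mem_filter, mem_filter, mem_powerset]
      have hMK : M ⊆ K := hM.1.trans (filter_subset _ _)
      have hd : ∀ y ∈ M, Disjoint (N x) (N y) := by
        intro y hy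
        have h1 := (mem_filter.1 (hM.1 hy)).2
        exact hdiff x hx y (hMK hy) (fun h => h1 (h ▸ ha))
      refine ⟨⟨insert_subset hx hMK, ?_, ?_⟩, mem_insert_self _ _⟩
      · intro u hu v hv hne
        rcases mem_insert.1 hu with h1 | h1 <;> rcases mem_insert.1 hv with h2 | h2
        · exact absurd (h1.trans h2.symm) hne
        · rw [h1]
          exact hd v h2
        · rw [h2]
          exact (hd u h1).symm
        · exact hM.2.1 u h1 v h2 hne
      · intro u hu
        rcases mem_insert.1 hu with h1 | h1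
        · rw [h1]
          exact hT
        · exact hM.2.2 u h1
    · intro M hM
      rw [mem_filter, mem_filter, mem_powerset] at hM
      rw [mem_filter, mem_powerset]
      refine ⟨?_, avd_sub hM.1.2 (erase_subset _ _)⟩
      intro y hy
      rw [mem_erase] at hy
      rw [mem_filter]
      refine ⟨hM.1.1 hy.2, fun h => ?_⟩
      exact hsame y (hM.1.1 hy.2) x hx (h.trans ha.symm) (hM.1.2.1 y hy.2 x hM.2 hy.1)
    · intro M hM
      rw [mem_filter, mem_powerset] at hM
      refine erase_insert ?_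
      intro h
      exact (mem_filter.1 (hM.1 h)).2 ha
    · intro M hM
      rw [mem_filter] at hM
      exact insert_erase hM.2
    · intro M hM
      rw [mem_filter, mem_powerset] at hM
      rw [prod_insert]
      intro h
      exact (mem_filter.1 (hM.1 h)).2 ha
  · rw [if_neg hT, zero_mul]
    refine sum_eq_zero ?_
    intro M hM
    rw [mem_filter, mem_filter] at hM
    exact absurd (hM.1.2.2 x hM.2) hT

/-- one class splits off -/
lemma G_split (a : ι)
    (hsame : ∀ x ∈ K, ∀ y ∈ K, κ x = κ y → ¬ Disjoint (N x) (N y))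
    (hdiff : ∀ x ∈ K, ∀ y ∈ K, κ x ≠ κ y → Disjoint (N x) (N y)) :
    G N s K T = (1 + C (ss N s κ K T a) * X) * G N s (K.filter (fun y => κ y ≠ a)) T := by
  classical
  have h1 : G N s K T = ∑ M ∈ (K.powerset.filter (Avd N T)).filter (fun M => ∀ x ∈ M, κ x ≠ a),
      ∏ y ∈ M, (C (s y) * X) + ∑ M ∈ (K.powerset.filter (Avd N T)).filter
        (fun M => ¬ ∀ x ∈ M, κ x ≠ a), ∏ y ∈ M, (C (s y) * X) := by
    unfold G
    exact (sum_filter_add_sum_filter_not _ _ _).symm
  have h2 : (K.powerset.filter (Avd N T)).filter (fun M => ∀ x ∈ M, κ x ≠ a) =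
      (K.filter (fun y => κ y ≠ a)).powerset.filter (Avd N T) := by
    ext M
    rw [mem_filter, mem_filter, mem_filter, mem_powerset, mem_powerset]
    constructor
    · rintro ⟨⟨h3, h4⟩, h5⟩
      exact ⟨fun x hx => mem_filter.2 ⟨h3 hx, h5 x hx⟩, h4⟩
    · rintro ⟨h3, h4⟩
      exact ⟨⟨h3.trans (filter_subset _ _), h4⟩, fun x hx => (mem_filter.1 (h3 hx)).2⟩
  have h3 : (K.powerset.filter (Avd N T)).filter (fun M => ¬ ∀ x ∈ M, κ x ≠ a) =
      (K.filter (fun x => κ x = a)).biUnion
        (fun x => (K.powerset.filter (Avd N T)).filter (fun M => x ∈ M)) := by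
    ext M
    rw [mem_filter, mem_biUnion]
    constructor
    · rintro ⟨h4, h5⟩
      push Not at h5
      obtain ⟨x, hx, hxa⟩ := h5
      refine ⟨x, mem_filter.2 ⟨?_, hxa⟩, mem_filter.2 ⟨h4, hx⟩⟩
      exact mem_powerset.1 (mem_filter.1 h4).1 hx
    · rintro ⟨x, hx, hM⟩
      rw [mem_filter] at hx hM
      exact ⟨hM.1, fun h => h x hM.2 hx.2⟩
  have h4 : ∀ x ∈ K.filter (fun x => κ x = a), ∀ y ∈ K.filter (fun x => κ x = a), x ≠ y →
      Disjoint ((K.powerset.filter (Avd N T)).filter (fun M => x ∈ M))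
        ((K.powerset.filter (Avd N T)).filter (fun M => y ∈ M)) := by
    intro x hx y hy hne
    rw [mem_filter] at hx hy
    rw [disjoint_left]
    intro M hM hM'
    rw [mem_filter, mem_filter] at hM
    rw [mem_filter] at hM'
    exact hsame x hx.1 y hy.1 (hx.2.trans hy.2.symm) (hM.1.2.1 x hM.2 y hM'.2 hne)
  rw [h1, h2, h3, sum_biUnion h4]
  have h5 : ∀ x ∈ K.filter (fun x => κ x = a),
      ∑ M ∈ (K.powerset.filter (Avd N T)).filter (fun M => x ∈ M), ∏ y ∈ M, (C (s y) * X) =
      (if Disjoint (N x) T then C (s x) * X else 0) * G N s (K.filter (fun y => κ y ≠ a)) T := by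
    intro x hx
    rw [mem_filter] at hx
    exact sum_mem hx.1 hx.2 hsame hdiff
  rw [sum_congr rfl h5, ← sum_mul, ← sum_filter, filter_filter, ← sum_mul]
  have h6 : ∑ x ∈ K.filter (fun x => κ x = a ∧ Disjoint (N x) T), C (s x) =
      (C (ss N s κ K T a) : ℤ[X]) := by
    unfold ss
    rw [map_sum]
  rw [h6, add_mul, one_mul]
  rfl

/-- THE PRODUCT FORMULA -/
theorem G_prod (I : Finset ι) (K : Finset α) (hI : ∀ x ∈ K, κ x ∈ I)
    (hsame : ∀ x ∈ K, ∀ y ∈ K, κ x = κ y → ¬ Disjoint (N x) (N y))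
    (hdiff : ∀ x ∈ K, ∀ y ∈ K, κ x ≠ κ y → Disjoint (N x) (N y)) :
    G N s K T = ∏ a ∈ I, (1 + C (ss N s κ K T a) * X) := by
  classical
  induction I using Finset.induction_on generalizing K with
  | empty =>
    have h1 : K = ∅ := by
      rw [eq_empty_iff_forall_notMem]
      exact fun x hx => notMem_empty _ (hI x hx)
    subst h1
    unfold G
    rw [powerset_empty, filter_singleton, if_pos (avd_empty N T), sum_singleton, prod_empty,
      prod_empty]
  | insert a I ha ih =>
    rw [prod_insert ha, G_split a hsame hdiff, ih]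
    · congr 1
      refine prod_congr rfl (fun b hb => ?_)
      have hba : b ≠ a := fun h => ha (h ▸ hb)
      have h2 : ss N s κ (K.filter (fun y => κ y ≠ a)) T b = ss N s κ K T b := by
        unfold ss
        rw [filter_filter]
        refine sum_congr ?_ (fun _ _ => rfl)
        refine filter_congr (fun x _ => ?_)
        constructor
        · rintro ⟨_, h3, h4⟩
          exact ⟨h3, h4⟩
        · rintro ⟨h3, h4⟩
          exact ⟨h3 ▸ hba, h3, h4⟩
      rw [h2]
    · intro x hx
      rw [mem_filter] at hx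
      rcases mem_insert.1 (hI x hx.1) with h | h
      · exact absurd h hx.2
      · exact h
    · exact fun x hx y hy => hsame x (mem_of_mem_filter x hx) y (mem_of_mem_filter y hy)
    · exact fun x hx y hy => hdiff x (mem_of_mem_filter x hx) y (mem_of_mem_filter y hy)

/-- a class which does not meet `T` and has total zero does not contribute -/
lemma ss_zero {a : ι} (hd : ∀ x ∈ K, κ x = a → Disjoint (N x) T)
    (h0 : ∑ x ∈ K.filter (fun x => κ x = a), s x = 0) : ss N s κ K T a = 0 := by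
  classical
  unfold ss
  rw [← h0]
  refine sum_congr ?_ (fun _ _ => rfl)
  refine filter_congr (fun x hx => ?_)
  exact ⟨fun h => h.1, fun h => ⟨h, hd x hx h⟩⟩

lemma ss_none {a : ι} (h : ∀ x ∈ K, κ x ≠ a) : ss N s κ K T a = 0 := by
  classical
  unfold ss
  rw [filter_false_of_mem, sum_empty]
  exact fun x hx h2 => h x hx h2.1

/-- only the classes of `J` meet `T` -/
theorem G_prod_J (J : Finset ι) (K : Finset α)
    (hsame : ∀ x ∈ K, ∀ y ∈ K, κ x = κ y → ¬ Disjoint (N x) (N y))
    (hdiff : ∀ x ∈ K, ∀ y ∈ K, κ x ≠ κ y → Disjoint (N x) (N y))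
    (hT : ∀ x ∈ K, κ x ∉ J → Disjoint (N x) T)
    (h0 : ∀ a, a ∉ J → ∑ x ∈ K.filter (fun x => κ x = a), s x = 0) :
    G N s K T = ∏ a ∈ J, (1 + C (ss N s κ K T a) * X) := by
  classical
  rw [G_prod (J ∪ K.image κ) K (fun x hx => mem_union_right _ (mem_image_of_mem κ hx)) hsame hdiff]
  symm
  refine prod_subset subset_union_left ?_
  intro a _ ha
  have h1 : ss N s κ K T a = 0 := by
    refine ss_zero (fun x hx h => hT x hx ?_) (h0 a ha)
    rw [h]
    exact ha
  rw [h1, C_0, zero_mul, add_zero]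

/-- `T` in two classes -/
theorem E_two {a b : ι} (hab : a ≠ b)
    (hsame : ∀ x ∈ K, ∀ y ∈ K, κ x = κ y → ¬ Disjoint (N x) (N y))
    (hdiff : ∀ x ∈ K, ∀ y ∈ K, κ x ≠ κ y → Disjoint (N x) (N y))
    (hT : ∀ x ∈ K, κ x ≠ a → κ x ≠ b → Disjoint (N x) T)
    (h0 : ∀ c, c ≠ a → c ≠ b → ∑ x ∈ K.filter (fun x => κ x = c), s x = 0) :
    E N s K T 0 = 1 ∧ E N s K T 1 = ss N s κ K T a + ss N s κ K T b ∧
      E N s K T 2 = ss N s κ K T a * ss N s κ K T b ∧ ∀ k, 3 ≤ k → E N s K T k = 0 := by
  classical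
  have h1 := G_prod_J (s := s) (T := T) ({a, b} : Finset ι) K hsame hdiff
    (by
      intro x hx h
      rw [mem_insert, mem_singleton, not_or] at h
      exact hT x hx h.1 h.2)
    (by
      intro c hc
      rw [mem_insert, mem_singleton, not_or] at hc
      exact h0 c hc.1 hc.2)
  rw [prod_pair hab] at h1
  set p := ss N s κ K T a with hp
  set q := ss N s κ K T b with hq
  have h2 : G N s K T = C 1 + C (p + q) * X + C (p * q) * X ^ 2 := by
    rw [h1, map_add, map_mul, map_one]
    ring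
  have h3 : ∀ k, E N s K T k = (if k = 0 then 1 else 0) + (p + q) * (if 1 = k then 1 else 0) +
      (p * q) * (if k = 2 then 1 else 0) := by
    intro k
    rw [← coeff_G, h2, coeff_add, coeff_add, coeff_C_mul, coeff_C_mul, coeff_C, coeff_X,
      coeff_X_pow]
  refine ⟨?_, ?_, ?_, ?_⟩
  · rw [h3]
    norm_num
  · rw [h3]
    norm_num
  · rw [h3]
    norm_num
  · intro k hk
    rw [h3]
    have e1 : ¬ k = 0 := by omega
    have e2 : ¬ 1 = k := by omega
    have e3 : ¬ k = 2 := by omega
    rw [if_neg e1, if_neg e2, if_neg e3]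
    ring

/-- `T` in one class -/
theorem E_one {a : ι}
    (hsame : ∀ x ∈ K, ∀ y ∈ K, κ x = κ y → ¬ Disjoint (N x) (N y))
    (hdiff : ∀ x ∈ K, ∀ y ∈ K, κ x ≠ κ y → Disjoint (N x) (N y))
    (hT : ∀ x ∈ K, κ x ≠ a → Disjoint (N x) T)
    (h0 : ∀ c, c ≠ a → ∑ x ∈ K.filter (fun x => κ x = c), s x = 0) :
    E N s K T 0 = 1 ∧ E N s K T 1 = ss N s κ K T a ∧ ∀ k, 2 ≤ k → E N s K T k = 0 := by
  classical
  have h1 := G_prod_J (s := s) (T := T) ({a} : Finset ι) K hsame hdiff
    (by
      intro x hx h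
      rw [mem_singleton] at h
      exact hT x hx h)
    (by
      intro c hc
      rw [mem_singleton] at hc
      exact h0 c hc)
  rw [prod_singleton] at h1
  have h3 : ∀ k, E N s K T k = (1 + C (ss N s κ K T a) * X : ℤ[X]).coeff k := by
    intro k
    rw [← coeff_G, h1]
  refine ⟨?_, ?_, ?_⟩
  · rw [h3]
    simp [coeff_X, coeff_one]
  · rw [h3]
    simp [coeff_one]
  · intro k hk
    rw [h3]
    have e1 : ¬ k = 0 := by omega
    have e2 : ¬ 1 = k := by omega
    simp [coeff_X, coeff_one, e1, e2]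

/-- `T` meets no class -/
theorem E_zero
    (hsame : ∀ x ∈ K, ∀ y ∈ K, κ x = κ y → ¬ Disjoint (N x) (N y))
    (hdiff : ∀ x ∈ K, ∀ y ∈ K, κ x ≠ κ y → Disjoint (N x) (N y))
    (hT : ∀ x ∈ K, Disjoint (N x) T)
    (h0 : ∀ c, ∑ x ∈ K.filter (fun x => κ x = c), s x = 0) :
    E N s K T 0 = 1 ∧ ∀ k, 1 ≤ k → E N s K T k = 0 := by
  classical
  have h1 := G_prod_J (s := s) (T := T) (∅ : Finset ι) K hsame hdiff
    (fun x hx _ => hT x hx) (fun c _ => h0 c)
  rw [prod_empty] at h1
  have h3 : ∀ k, E N s K T k = (1 : ℤ[X]).coeff k := by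
    intro k
    rw [← coeff_G, h1]
  refine ⟨?_, ?_⟩
  · rw [h3]
    simp [coeff_one]
  · intro k hk
    rw [h3]
    have e1 : ¬ k = 0 := by omega
    simp [coeff_one, e1]

end gen

end Pool.Agent.GaussPoset.EK
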