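import Pool.Agent.W_448e_h97.EA
import Pool.Agent.W_448kk_h94.KkD
import Pool.Agent.W_448st_h88.MgB
import Pool.Agent.W_448co_h5.PartD

/-! Families of unmatched double near elements with disjoint sites (MP_448cb3_co). -/

namespace Pool.Agent.GaussPoset.EK

set_option linter.unusedSectionVars false

open Finset Win St Polynomial

universe u

variable {P : Type u} [Fintype P] [PartialOrder P] [DecidableEq P] {r i : ℕ}

variable {ι : Type*} [DecidableEq ι] {κ : P → ι}

variable {K : Finset P} {psi : P → P} {T T1 T2 : Finset P}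

/-- the component of a double near element is the component of its sites -/
lemma kap_ns (H : Gr P r) (hκ : Split (i + 1) κ) {x v : P} (hx : x ∈ dbL P i ∪ dbU P i)
    (hv : v ∈ ns i x) : κ v = κ x := by
  rcases mem_union.1 hx with h | h
  · rw [ns_L h, mem_uc] at hv
    exact (hκ hv (by have := (mem_dbL.1 h).1; omega)).symm
  · have h1 := mem_lv.1 (ns_sub H hx hv)
    rw [ns_U h, mem_dc] at hv
    exact hκ hv (by omega)

lemma kap_ns' (H : Gr P r) (hκ : Split (i + 1) κ) {x v : P} (hx : x ∈ dbL P i ∪ dbU P i)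
    (hv : v ∈ ns i x) : κ v = κ x ∧ lev v = i :=
  ⟨kap_ns H hκ hx hv, mem_lv.1 (ns_sub H hx hv)⟩

lemma ns_ne {x : P} (hx : x ∈ dbL P i ∪ dbU P i) : (ns i x).Nonempty := by
  rw [← card_pos, ns_card hx]
  norm_num

/-- near doubles of different components have disjoint sites -/
lemma ns_diff (H : Gr P r) (hκ : Split (i + 1) κ) {x y : P} (hx : x ∈ dbL P i ∪ dbU P i)
    (hy : y ∈ dbL P i ∪ dbU P i) (h : κ x ≠ κ y) : Disjoint (ns i x) (ns i y) := by
  rw [disjoint_left]
  intro v hv hv'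
  exact h ((kap_ns H hκ hx hv).symm.trans (kap_ns H hκ hy hv'))

lemma ns_dT (H : Gr P r) (hκ : Split (i + 1) κ) {x : P} (hx : x ∈ dbL P i ∪ dbU P i)
    (hT : ∀ v ∈ T, κ v ≠ κ x) : Disjoint (ns i x) T := by
  rw [disjoint_left]
  intro v hv hv'
  exact hT v hv' (kap_ns H hκ hx hv)

/-- the avoiding families are the disjoint families of this development -/
lemma avd_iff {M : Finset P} (hM : M ⊆ dbL P i ∪ dbU P i) :
    Avd (ns i) T M ↔ Dj i M ∧ Disjoint (M.biUnion (ns i)) T := by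
  unfold Avd Dj
  rw [disjoint_biUnion_left]
  constructor
  · rintro ⟨h1, h2⟩
    exact ⟨⟨hM, h1⟩, h2⟩
  · rintro ⟨⟨_, h1⟩, h2⟩
    exact ⟨h1, h2⟩

/-! ### the defect of a component -/

/-- cross defects vanish -/
lemma Df_cross (H : Gr P r) (hκ : Split (i + 1) κ) {u w : P} (hu : lev u = i) (hw : lev w = i)
    (h : κ u ≠ κ w) : Df i {u, w} = 0 := by
  classical
  have hne : u ≠ w := fun h1 => h (h1 ▸ rfl)
  rw [Df_pair H hu hne]
  have h1 : dcv u w = 0 := by
    unfold dcv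
    rw [card_eq_zero, filter_eq_empty_iff]
    rintro y _ ⟨h2, h3⟩
    have h4 := (H.covBy_iff.1 h2).2
    exact h ((hκ h2 (by omega)).symm.trans (hκ h3 (by omega)))
  have h2 : ucv u w = 0 := by
    unfold ucv
    rw [card_eq_zero, filter_eq_empty_iff]
    rintro y _ ⟨h2, h3⟩
    exact h ((hκ h2 (by omega)).trans (hκ h3 (by omega)).symm)
  rw [h1, h2]
  simp

/-- the matching polynomial of a level is one -/
theorem mp_lv (H : Gr P r) (hi : i ≤ r) : mp (Df i) (lv P i) = 1 := by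
  refine mp_eq_one ?_
  intro k hk
  rw [← kk_match H hi hk]
  refine sum_congr ?_ (fun _ _ => rfl)
  ext M
  rw [mem_filter, mem_MS, mem_MM]
  constructor
  · rintro ⟨⟨h1, h2⟩, h3⟩
    exact ⟨h1, h3, fun S hS T hT hne => h2 hS hT hne⟩
  · rintro ⟨h1, h2, h3⟩
    exact ⟨⟨h1, fun S hS T hT hne => h3 S hS T hT hne⟩, h2⟩

/-- the matching polynomial of a component is one -/
theorem mp_comp (H : Gr P r) (hi : i ≤ r) (hκ : Split (i + 1) κ) (c : ι) :
    mp (Df i) ((lv P i).filter (fun v => κ v = c)) = 1 := by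
  classical
  by_cases hc : c ∈ (lv P i).image κ
  · have h1 : mp (Df i) (lv P i) = 1 := mp_lv H hi
    have h2 : lv P i = ((lv P i).image κ).biUnion (fun c => (lv P i).filter (fun v => κ v = c)) := by
      ext v
      rw [mem_biUnion]
      constructor
      · intro hv
        exact ⟨κ v, mem_image_of_mem κ hv, mem_filter.2 ⟨hv, rfl⟩⟩
      · rintro ⟨a, _, h⟩
        exact (mem_filter.1 h).1
    rw [h2, mp_biUnion] at h1
    · have h3 : ∀ (s : Finset ι) (p : ι → ℤ[X]), (∀ a ∈ s, (p a).coeff 0 = 1) →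
          ∏ a ∈ s, p a = 1 → ∀ a ∈ s, p a = 1 := by
        intro s p h0 h a ha
        rw [← mul_prod_erase s p ha] at h
        exact eq_one_of_mul h (h0 a ha)
      exact h3 _ _ (fun a _ => coeff_zero_mp) h1 c hc
    · intro a _ b _ hab
      rw [disjoint_left]
      intro v hv hv'
      rw [mem_filter] at hv hv'
      exact hab (hv.2.symm.trans hv'.2)
    · intro a _ b _ hab u hu w hw
      rw [mem_filter, mem_lv] at hu hw
      refine Df_cross H hκ hu.1 hw.1 ?_
      rw [hu.2, hw.2]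
      exact hab
  · have h1 : (lv P i).filter (fun v => κ v = c) = ∅ := by
      rw [filter_eq_empty_iff]
      intro v hv h
      exact hc (h ▸ mem_image_of_mem κ hv)
    rw [h1, mp_empty]

/-- the double near elements of a component have signed number zero -/
theorem sum_sgn (H : Gr P r) (hi : i ≤ r) (hκ : Split (i + 1) κ) (c : ι) :
    ∑ x ∈ (dbL P i ∪ dbU P i).filter (fun x => κ x = c), sgn i x = 0 := by
  classical
  have h1 : ∀ x ∈ (dbL P i ∪ dbU P i).filter (fun x => κ x = c),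
      ns i x ∈ ((lv P i).filter (fun v => κ v = c)).powersetCard 2 := by
    intro x hx
    rw [mem_filter] at hx
    rw [mem_powersetCard]
    refine ⟨fun v hv => ?_, ns_card hx.1⟩
    rw [mem_filter]
    exact ⟨ns_sub H hx.1 hv, (kap_ns H hκ hx.1 hv).trans hx.2⟩
  rw [← sum_fiberwise_of_maps_to h1]
  have h2 : ∀ T ∈ ((lv P i).filter (fun v => κ v = c)).powersetCard 2,
      ∑ x ∈ ((dbL P i ∪ dbU P i).filter (fun x => κ x = c)).filter (fun x => ns i x = T), sgn i x =
        Df i T := by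
    intro T hT
    rw [mem_powersetCard] at hT
    rw [← sum_fib (i := i) T, filter_filter]
    refine sum_congr ?_ (fun _ _ => rfl)
    refine filter_congr (fun x hx => ?_)
    constructor
    · exact fun h => h.2
    · intro h
      refine ⟨?_, h⟩
      obtain ⟨v, hv⟩ := ns_ne hx
      rw [← kap_ns H hκ hx hv]
      rw [h] at hv
      exact (mem_filter.1 (hT.1 hv)).2
  rw [sum_congr rfl h2]
  have h3 := two_mul_pairs (V := (lv P i).filter (fun v => κ v = c)) (Df i)
  rw [P2_eq_zero (mp_comp H hi hκ c)] at h3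
  rcases mul_eq_zero.1 h3 with h4 | h4
  · norm_num at h4
  · exact h4

lemma sgn_low {x : P} (hx : x ∈ dbL P i) : sgn i x = 1 := by
  unfold sgn
  rw [if_neg]
  intro h
  have h3 := (mem_dbL.1 hx).1
  have h4 := (mem_dbU.1 h).1
  omega

lemma sgn_upp {x : P} (hx : x ∈ dbU P i) : sgn i x = -1 := by
  unfold sgn
  rw [if_pos hx]

/-- the unmatched elements of a component have signed number zero -/
theorem sum_K (H : Gr P r) (hi : i ≤ r) (hκ : Split (i + 1) κ) (hM : Mat P i K psi)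
    (hK : K ⊆ dbL P i ∪ dbU P i) (c : ι) :
    ∑ x ∈ K.filter (fun x => κ x = c), sgn i x = 0 := by
  classical
  have h1 := sum_sgn H hi hκ c
  have h2 : ∑ x ∈ ((dbL P i ∪ dbU P i).filter (fun x => κ x = c)).filter (fun x => x ∉ K),
      sgn i x = 0 := by
    have hpsi : ∀ x ∈ dbL P i ∪ dbU P i, x ∉ K → psi x ∈ dbL P i ∪ dbU P i ∧
        ns i (psi x) = ns i x ∧ sgn i x + sgn i (psi x) = 0 := by
      intro x hx hxK
      rcases mem_union.1 hx with h | h
      · obtain ⟨h3, h4⟩ := hM.low x h hxK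
        refine ⟨mem_union_right _ h3, ?_, ?_⟩
        · rw [ns_L h, ns_U h3, h4]
        · rw [sgn_low h, sgn_upp h3]
          norm_num
      · obtain ⟨h3, h4⟩ := hM.upp x h hxK
        refine ⟨mem_union_left _ h3, ?_, ?_⟩
        · rw [ns_U h, ns_L h3, h4]
        · rw [sgn_upp h, sgn_low h3]
          norm_num
    refine sum_involution (fun x _ => psi x) ?_ ?_ ?_ ?_
    · intro x hx
      rw [mem_filter, mem_filter] at hx
      exact (hpsi x hx.1.1 hx.2).2.2
    · intro x hx _ h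
      rw [mem_filter, mem_filter] at hx
      have h3 := (hpsi x hx.1.1 hx.2).2.2
      rw [h] at h3
      rcases mem_union.1 hx.1.1 with h4 | h4
      · rw [sgn_low h4] at h3
        norm_num at h3
      · rw [sgn_upp h4] at h3
        norm_num at h3
    · intro x hx
      rw [mem_filter, mem_filter] at hx ⊢
      obtain ⟨h3, h4, _⟩ := hpsi x hx.1.1 hx.2
      refine ⟨⟨h3, ?_⟩, (hM.invol x hx.1.1 hx.2).2⟩
      obtain ⟨v, hv⟩ := ns_ne h3
      rw [← kap_ns H hκ h3 hv]
      rw [h4] at hv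
      rw [kap_ns H hκ hx.1.1 hv]
      exact hx.1.2
    · intro x hx
      rw [mem_filter, mem_filter] at hx
      exact (hM.invol x hx.1.1 hx.2).1
  rw [← sum_filter_add_sum_filter_not ((dbL P i ∪ dbU P i).filter (fun x => κ x = c))
    (fun x => x ∈ K), h2, add_zero] at h1
  rw [← h1]
  refine sum_congr ?_ (fun _ _ => rfl)
  ext x
  rw [mem_filter, mem_filter, mem_filter]
  constructor
  · rintro ⟨h3, h4⟩
    exact ⟨⟨hK h3, h4⟩, h3⟩
  · rintro ⟨⟨_, h4⟩, h3⟩
    exact ⟨h3, h4⟩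

/-! ### the product formula -/

/-- the hypothesis: any two unmatched elements of a component share a site -/
structure HK (r i : ℕ) (κ : P → ι) (K : Finset P) (psi : P → P) : Prop where
  H : Gr P r
  hi : i ≤ r
  spl : Split (i + 1) κ
  mat : Mat P i K psi
  sub : K ⊆ dbL P i ∪ dbU P i
  same : ∀ x ∈ K, ∀ y ∈ K, κ x = κ y → ¬ Disjoint (ns i x) (ns i y)

lemma HK.diff (h : HK r i κ K psi) :
    ∀ x ∈ K, ∀ y ∈ K, κ x ≠ κ y → Disjoint (ns i x) (ns i y) :=
  fun _ hx _ hy hn => ns_diff h.H h.spl (h.sub hx) (h.sub hy) hn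

lemma HK.zero (h : HK r i κ K psi) (c : ι) : ∑ x ∈ K.filter (fun x => κ x = c), sgn i x = 0 :=
  sum_K h.H h.hi h.spl h.mat h.sub c

/-- the signed number of the unmatched elements of the component `a` which avoid `T` -/
noncomputable def sa (i : ℕ) (κ : P → ι) (K T : Finset P) (a : ι) : ℤ := ss (ns i) (sgn i) κ K T a

/-- the signed number of the families with `k` members avoiding `T` -/
noncomputable def Ek (i : ℕ) (K T : Finset P) (k : ℕ) : ℤ := E (ns i) (sgn i) K T k

open Classical in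
lemma sa_eq (a : ι) : sa i κ K T a =
    ∑ x ∈ K.filter (fun x => κ x = a ∧ Disjoint (ns i x) T), sgn i x := by
  unfold sa ss
  rfl

open Classical in
lemma Ek_eq (hK : K ⊆ dbL P i ∪ dbU P i) (k : ℕ) : Ek i K T k =
    ∑ M ∈ (K.powersetCard k).filter (fun M => Dj i M ∧ Disjoint (M.biUnion (ns i)) T),
      ∏ x ∈ M, sgn i x := by
  unfold Ek E
  refine sum_congr ?_ (fun _ _ => rfl)
  ext M
  rw [mem_filter, mem_filter, mem_powersetCard]
  constructor
  · rintro ⟨⟨h1, h2⟩, h3⟩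
    exact ⟨⟨h1, h2⟩, (avd_iff (h1.trans hK)).1 h3⟩
  · rintro ⟨⟨h1, h2⟩, h3⟩
    exact ⟨⟨h1, h2⟩, (avd_iff (h1.trans hK)).2 h3⟩

/-- THE PRODUCT FORMULA: the generating polynomial of the families avoiding `T` -/
theorem HK.prod (h : HK r i κ K psi) (T : Finset P) (I : Finset ι) (hI : ∀ x ∈ K, κ x ∈ I) :
    G (ns i) (sgn i) K T = ∏ a ∈ I, (1 + C (sa i κ K T a) * X) :=
  G_prod I K hI h.same h.diff

lemma Ek_coeff (k : ℕ) : Ek i K T k = (G (ns i) (sgn i) K T).coeff k := (coeff_G k).symm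

/-- `T` contained in the union of two components -/
theorem HK.two (h : HK r i κ K psi) {a b : ι} (hab : a ≠ b) (hT : ∀ v ∈ T, κ v = a ∨ κ v = b) :
    Ek i K T 0 = 1 ∧ Ek i K T 1 = sa i κ K T a + sa i κ K T b ∧
      Ek i K T 2 = sa i κ K T a * sa i κ K T b ∧ ∀ k, 3 ≤ k → Ek i K T k = 0 := by
  refine E_two hab h.same h.diff ?_ (fun c _ _ => h.zero c)
  intro x hx hxa hxb
  refine ns_dT h.H h.spl (h.sub hx) ?_
  intro v hv hvx
  rcases hT v hv with h1 | h1
  · exact hxa (hvx ▸ h1)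
  · exact hxb (hvx ▸ h1)

/-- `T` contained in one component -/
theorem HK.one (h : HK r i κ K psi) {a : ι} (hT : ∀ v ∈ T, κ v = a) :
    Ek i K T 0 = 1 ∧ Ek i K T 1 = sa i κ K T a ∧ ∀ k, 2 ≤ k → Ek i K T k = 0 := by
  refine E_one h.same h.diff ?_ (fun c _ => h.zero c)
  intro x hx hxa
  refine ns_dT h.H h.spl (h.sub hx) ?_
  intro v hv hvx
  exact hxa (hvx ▸ hT v hv)

/-- `T` empty -/
theorem HK.none (h : HK r i κ K psi) : Ek i K ∅ 0 = 1 ∧ ∀ k, 1 ≤ k → Ek i K ∅ k = 0 :=
  E_zero h.same h.diff (fun _ _ => disjoint_empty_right _) (fun c => h.zero c)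

/-- only the part of `T` in the component matters -/
lemma HK.sa_union (h : HK r i κ K psi) {a : ι} (hT : ∀ v ∈ T2, κ v ≠ a) :
    sa i κ K (T1 ∪ T2) a = sa i κ K T1 a := by
  classical
  rw [sa_eq, sa_eq]
  refine sum_congr ?_ (fun _ _ => rfl)
  refine filter_congr (fun x hx => ?_)
  rw [disjoint_union_right]
  constructor
  · rintro ⟨h1, h2, _⟩
    exact ⟨h1, h2⟩
  · rintro ⟨h1, h2⟩
    refine ⟨h1, h2, ns_dT h.H h.spl (h.sub hx) ?_⟩
    intro v hv
    rw [h1]
    exact hT v hv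

/-- a component which does not meet `T` -/
lemma HK.sa_zero (h : HK r i κ K psi) {a : ι} (hT : ∀ v ∈ T, κ v ≠ a) : sa i κ K T a = 0 := by
  have h1 : sa i κ K (∅ ∪ T) a = sa i κ K ∅ a := h.sa_union hT
  rw [empty_union] at h1
  rw [h1, ← h.zero a]
  unfold sa ss
  refine sum_congr ?_ (fun _ _ => rfl)
  refine filter_congr (fun x _ => ?_)
  exact ⟨fun h => h.1, fun h => ⟨h, disjoint_empty_right _⟩⟩

/-- `T` is the union of `T1` in the component `a` and `T2` in the component `b` -/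
theorem HK.cross (h : HK r i κ K psi) {a b : ι} (hab : a ≠ b) (hT1 : ∀ v ∈ T1, κ v = a)
    (hT2 : ∀ v ∈ T2, κ v = b) :
    Ek i K (T1 ∪ T2) 0 = 1 ∧
      Ek i K (T1 ∪ T2) 1 = sa i κ K T1 a + sa i κ K T2 b ∧
      Ek i K (T1 ∪ T2) 2 = sa i κ K T1 a * sa i κ K T2 b ∧
      Ek i K (T1 ∪ T2) 3 = 0 ∧ ∀ k, 3 ≤ k → Ek i K (T1 ∪ T2) k = 0 := by
  have h1 : ∀ v ∈ T1 ∪ T2, κ v = a ∨ κ v = b := by
    intro v hv
    rcases mem_union.1 hv with h1 | h1
    · exact Or.inl (hT1 v h1)
    · exact Or.inr (hT2 v h1)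
  obtain ⟨h2, h3, h4, h5⟩ := h.two hab h1
  have h6 : sa i κ K (T1 ∪ T2) a = sa i κ K T1 a := h.sa_union (fun v hv => by
    rw [hT2 v hv]
    exact hab.symm)
  have h7 : sa i κ K (T1 ∪ T2) b = sa i κ K T2 b := by
    rw [union_comm]
    exact h.sa_union (fun v hv => by
      rw [hT1 v hv]
      exact hab)
  rw [h6, h7] at h3 h4
  exact ⟨h2, h3, h4, h5 3 le_rfl, h5⟩

end Pool.Agent.GaussPoset.EK
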