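import Pool.Agent.W_448e_h97.ED

/-! Values of the signed numbers of unmatched elements (MP_448cb3_co). -/

namespace Pool.Agent.GaussPoset.EK

set_option linter.unusedSectionVars false

open Finset Win St Polynomial

universe u

variable {P : Type u} [Fintype P] [PartialOrder P] [DecidableEq P] {r i : ℕ}

variable {ι : Type*} [DecidableEq ι] {κ : P → ι}

variable {K : Finset P} {psi : P → P} {T T1 T2 : Finset P}

/-- the matched elements cancel in every sum over a condition on the sites -/
theorem sum_pred (hM : Mat P i K psi) (hK : K ⊆ dbL P i ∪ dbU P i) (p : Finset P → Prop)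
    [DecidablePred fun x => p (ns i x)] :
    ∑ x ∈ K.filter (fun x => p (ns i x)), sgn i x =
      ∑ x ∈ (dbL P i ∪ dbU P i).filter (fun x => p (ns i x)), sgn i x := by
  classical
  have h2 : ∑ x ∈ ((dbL P i ∪ dbU P i).filter (fun x => p (ns i x))).filter (fun x => x ∉ K),
      sgn i x = 0 := by
    have hpsi : ∀ x ∈ dbL P i ∪ dbU P i, x ∉ K → psi x ∈ dbL P i ∪ dbU P i ∧
        ns i (psi x) = ns i x ∧ sgn i x + sgn i (psi x) = 0 := by
      intro x hx hxK
      rcases mem_union.1 hx with h | h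
      · obtain ⟨h3, h4⟩ := hM.low x h hxK
        refine ⟨mem_union_right _ h3, ?_, ?_⟩
        · rw [ns_L h, ns_U h3, h4]
        · rw [sgn_low h, sgn_upp h3]
          norm_num
      · obtain ⟨h3, h4⟩ := hM.upp x h hxK
        refine ⟨mem_union_left _ h3, ?_, ?_⟩
        · rw [ns_U h, ns_L h3, h4]
        · rw [sgn_upp h, sgn_low h3]
          norm_num
    refine sum_involution (fun x _ => psi x) ?_ ?_ ?_ ?_
    · intro x hx
      rw [mem_filter, mem_filter] at hx
      exact (hpsi x hx.1.1 hx.2).2.2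
    · intro x hx _ h
      rw [mem_filter, mem_filter] at hx
      have h3 := (hpsi x hx.1.1 hx.2).2.2
      rw [h] at h3
      rcases mem_union.1 hx.1.1 with h4 | h4
      · rw [sgn_low h4] at h3
        norm_num at h3
      · rw [sgn_upp h4] at h3
        norm_num at h3
    · intro x hx
      rw [mem_filter, mem_filter] at hx ⊢
      obtain ⟨h3, h4, _⟩ := hpsi x hx.1.1 hx.2
      refine ⟨⟨h3, ?_⟩, (hM.invol x hx.1.1 hx.2).2⟩
      rw [h4]
      exact hx.1.2
    · intro x hx
      rw [mem_filter, mem_filter] at hx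
      exact (hM.invol x hx.1.1 hx.2).1
  rw [← sum_filter_add_sum_filter_not ((dbL P i ∪ dbU P i).filter (fun x => p (ns i x)))
    (fun x => x ∈ K), h2, add_zero]
  refine sum_congr ?_ (fun _ _ => rfl)
  ext x
  rw [mem_filter, mem_filter, mem_filter]
  constructor
  · rintro ⟨h3, h4⟩
    exact ⟨⟨hK h3, h4⟩, h3⟩
  · rintro ⟨⟨_, h4⟩, h3⟩
    exact ⟨h3, h4⟩

/-- the unmatched elements with the sites `T` have signed number `Df i T` -/
lemma fib_K (hM : Mat P i K psi) (hK : K ⊆ dbL P i ∪ dbU P i) (T : Finset P) :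
    ∑ x ∈ K.filter (fun x => ns i x = T), sgn i x = Df i T := by
  rw [sum_pred hM hK (fun S => S = T), sum_fib]

open Classical in
/-- number of double-down upper covers -/
noncomputable def UD (x : P) : ℤ := ((uc x).filter (fun u => (dc u).card = 2)).card

open Classical in
/-- number of double-up lower covers -/
noncomputable def LD (x : P) : ℤ := ((dc x).filter (fun w => (uc w).card = 2)).card

/-- signed number of the near doubles over the site `x` -/
lemma sum_at (H : Gr P r) {x : P} (hx : lev x = i) :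
    ∑ k ∈ (dbL P i ∪ dbU P i).filter (fun k => x ∈ ns i k), sgn i k = LD x - UD x := by
  classical
  have h1 : (dbL P i ∪ dbU P i).filter (fun k => x ∈ ns i k) =
      ((dc x).filter (fun w => (uc w).card = 2)) ∪ ((uc x).filter (fun u => (dc u).card = 2)) := by
    ext k
    rw [mem_filter, mem_union, mem_union, mem_filter, mem_filter]
    constructor
    · rintro ⟨h | h, h2⟩
      · rw [ns_L h] at h2
        exact Or.inl ⟨mem_dc.2 (mem_uc.1 h2), (mem_dbL.1 h).2⟩
      · rw [ns_U h] at h2
        exact Or.inr ⟨mem_uc.2 (mem_dc.1 h2), (mem_dbU.1 h).2⟩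
    · rintro (⟨h, h2⟩ | ⟨h, h2⟩)
      · have h3 := lev_dc H h
        have h4 : k ∈ dbL P i := mem_dbL.2 ⟨by omega, h2⟩
        refine ⟨Or.inl h4, ?_⟩
        rw [ns_L h4]
        exact mem_uc.2 (mem_dc.1 h)
      · have h3 := lev_uc H h
        have h4 : k ∈ dbU P i := mem_dbU.2 ⟨by omega, h2⟩
        refine ⟨Or.inr h4, ?_⟩
        rw [ns_U h4]
        exact mem_dc.2 (mem_uc.1 h)
  have h2 : Disjoint ((dc x).filter (fun w => (uc w).card = 2))
      ((uc x).filter (fun u => (dc u).card = 2)) := by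
    rw [disjoint_left]
    intro k hk hk'
    have h3 := lev_dc H (mem_filter.1 hk).1
    have h4 := lev_uc H (mem_filter.1 hk').1
    omega
  rw [h1, sum_union h2]
  have h3 : ∑ k ∈ (dc x).filter (fun w => (uc w).card = 2), sgn i k =
      ∑ k ∈ (dc x).filter (fun w => (uc w).card = 2), 1 := by
    refine sum_congr rfl (fun k hk => ?_)
    rw [mem_filter] at hk
    have h3 := lev_dc H hk.1
    exact sgn_low (mem_dbL.2 ⟨by omega, hk.2⟩)
  have h4 : ∑ k ∈ (uc x).filter (fun u => (dc u).card = 2), sgn i k =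
      ∑ k ∈ (uc x).filter (fun u => (dc u).card = 2), -1 := by
    refine sum_congr rfl (fun k hk => ?_)
    rw [mem_filter] at hk
    have h3 := lev_uc H hk.1
    exact sgn_upp (mem_dbU.2 ⟨by omega, hk.2⟩)
  rw [h3, h4]
  unfold LD UD
  simp only [sum_const, nsmul_eq_mul, mul_one]
  ring

/-- signed number of the near doubles over two sites -/
lemma sum_at_two (H : Gr P r) {p q : P} (hp : lev p = i) (hne : p ≠ q) :
    ∑ k ∈ (dbL P i ∪ dbU P i).filter (fun k => p ∈ ns i k ∧ q ∈ ns i k), sgn i k =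
      (dcv p q : ℤ) - (ucv p q : ℤ) := by
  classical
  rw [← Df_pair H hp hne, ← sum_fib]
  refine sum_congr ?_ (fun _ _ => rfl)
  refine filter_congr (fun k hk => ?_)
  constructor
  · rintro ⟨h1, h2⟩
    symm
    refine eq_of_subset_of_card_le ?_ ?_
    · intro v hv
      rw [mem_insert, mem_singleton] at hv
      rcases hv with rfl | rfl
      · exact h1
      · exact h2
    · rw [ns_card hk, card_pair hne]
  · intro h
    rw [h]
    exact ⟨mem_insert_self _ _, mem_insert_of_mem (mem_singleton_self _)⟩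

/-- the signed number of the unmatched elements of the component which avoid `T` is that of the
near doubles which meet `T`, with the opposite sign -/
theorem sa_eq_neg (H : Gr P r) (hi : i ≤ r) (hκ : Split (i + 1) κ) (hM : Mat P i K psi)
    (hK : K ⊆ dbL P i ∪ dbU P i) {a : ι} (hT : ∀ v ∈ T, κ v = a) :
    sa i κ K T a = -∑ k ∈ (dbL P i ∪ dbU P i).filter (fun k => ¬ Disjoint (ns i k) T), sgn i k := by
  classical
  rw [sa_eq]
  have h1 := sum_K H hi hκ hM hK a
  rw [← sum_filter_add_sum_filter_not (K.filter (fun x => κ x = a))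
    (fun x => Disjoint (ns i x) T), filter_filter, filter_filter] at h1
  have h2 : K.filter (fun x => κ x = a ∧ ¬ Disjoint (ns i x) T) =
      K.filter (fun x => ¬ Disjoint (ns i x) T) := by
    refine filter_congr (fun x hx => ?_)
    constructor
    · exact fun h => h.2
    · intro h
      refine ⟨?_, h⟩
      rw [not_disjoint_iff] at h
      obtain ⟨v, hv, hvT⟩ := h
      rw [← kap_ns H hκ (hK hx) hv]
      exact hT v hvT
  rw [h2, sum_pred hM hK (fun S => ¬ Disjoint S T)] at h1
  have h3 : ∑ x ∈ K.filter (fun x => κ x = a ∧ Disjoint (ns i x) T), sgn i x =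
      -∑ k ∈ (dbL P i ∪ dbU P i).filter (fun k => ¬ Disjoint (ns i k) T), sgn i k := by
    linarith
  convert h3

/-- VALUE for one site -/
theorem sa_one (H : Gr P r) (hi : i ≤ r) (hκ : Split (i + 1) κ) (hM : Mat P i K psi)
    (hK : K ⊆ dbL P i ∪ dbU P i) {x : P} (hx : lev x = i) :
    sa i κ K {x} (κ x) = UD x - LD x := by
  classical
  rw [sa_eq_neg H hi hκ hM hK (fun v hv => by rw [mem_singleton.1 hv])]
  have h1 := sum_at H hx
  have h2 : (dbL P i ∪ dbU P i).filter (fun k => ¬ Disjoint (ns i k) {x}) =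
      (dbL P i ∪ dbU P i).filter (fun k => x ∈ ns i k) := by
    refine filter_congr (fun k _ => ?_)
    rw [disjoint_singleton_right, not_not]
  rw [h2, h1]
  ring

/-- VALUE for two sites -/
theorem sa_two (H : Gr P r) (hi : i ≤ r) (hκ : Split (i + 1) κ) (hM : Mat P i K psi)
    (hK : K ⊆ dbL P i ∪ dbU P i) {p q : P} (hp : lev p = i) (hq : lev q = i) (hne : p ≠ q)
    (hpq : κ p = κ q) :
    sa i κ K {p, q} (κ p) =
      (UD p - LD p) + (UD q - LD q) + ((dcv p q : ℤ) - (ucv p q : ℤ)) := by
  classical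
  have hT : ∀ v ∈ ({p, q} : Finset P), κ v = κ p := by
    intro v hv
    rw [mem_insert, mem_singleton] at hv
    rcases hv with rfl | rfl
    · rfl
    · exact hpq.symm
  rw [sa_eq_neg H hi hκ hM hK hT]
  have h1 := sum_at H hp
  have h2 := sum_at H hq
  have h3 := sum_at_two H hp hne
  have h4 : (dbL P i ∪ dbU P i).filter (fun k => ¬ Disjoint (ns i k) {p, q}) =
      (dbL P i ∪ dbU P i).filter (fun k => p ∈ ns i k) ∪
        (dbL P i ∪ dbU P i).filter (fun k => q ∈ ns i k) := by
    ext k
    rw [mem_filter]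
    constructor
    · rintro ⟨hk, hnd⟩
      rw [not_disjoint_iff] at hnd
      obtain ⟨v, hv, hv2⟩ := hnd
      rw [mem_insert, mem_singleton] at hv2
      rcases hv2 with rfl | rfl
      · exact mem_union_left _ (mem_filter.2 ⟨hk, hv⟩)
      · exact mem_union_right _ (mem_filter.2 ⟨hk, hv⟩)
    · intro h
      rcases mem_union.1 h with h | h
      · rw [mem_filter] at h
        exact ⟨h.1, not_disjoint_iff.2 ⟨p, h.2, mem_insert_self _ _⟩⟩
      · rw [mem_filter] at h
        exact ⟨h.1, not_disjoint_iff.2 ⟨q, h.2, mem_insert_of_mem (mem_singleton_self _)⟩⟩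
  have h5 : (dbL P i ∪ dbU P i).filter (fun k => p ∈ ns i k) ∩
      (dbL P i ∪ dbU P i).filter (fun k => q ∈ ns i k) =
      (dbL P i ∪ dbU P i).filter (fun k => p ∈ ns i k ∧ q ∈ ns i k) := by
    ext k
    simp only [mem_inter, mem_filter]
    tauto
  have h6 := sum_union_inter (s₁ := (dbL P i ∪ dbU P i).filter (fun k => p ∈ ns i k))
    (s₂ := (dbL P i ∪ dbU P i).filter (fun k => q ∈ ns i k)) (f := sgn i)
  rw [h5, h1, h2, h3] at h6
  rw [h4]
  linarith

/-- a site with a single-up lower cover has at most one double-up lower cover -/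
lemma LD_le_one (H : Gr P r) {x v : P} (hv : v ∈ dc x) (h1 : (uc v).card = 1) : LD x ≤ 1 := by
  classical
  unfold LD
  have h2 : (dc x).filter (fun w => (uc w).card = 2) ⊆ (dc x).erase v := by
    intro w hw
    rw [mem_filter] at hw
    rw [mem_erase]
    refine ⟨?_, hw.1⟩
    rintro rfl
    omega
  have h3 := card_le_card h2
  rw [card_erase_of_mem hv] at h3
  have h4 := dc_card_le H x
  have h5 : ((dc x).filter (fun w => (uc w).card = 2)).card ≤ 1 := by omega
  exact_mod_cast h5

lemma UD_pos {x u : P} (hu : u ∈ uc x) (h1 : (dc u).card = 2) : 1 ≤ UD x := by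
  classical
  unfold UD
  have h2 : 0 < ((uc x).filter (fun u => (dc u).card = 2)).card :=
    card_pos.2 ⟨u, mem_filter.2 ⟨hu, h1⟩⟩
  exact_mod_cast h2

/-- the value over a site with a single-up lower cover and a double-down upper cover is `≥ 0` -/
theorem sa_single_nonneg (H : Gr P r) (hi : i ≤ r) (hκ : Split (i + 1) κ) (hM : Mat P i K psi)
    (hK : K ⊆ dbL P i ∪ dbU P i) {x v u : P} (hx : lev x = i) (hv : v ∈ dc x)
    (hv1 : (uc v).card = 1) (hu : u ∈ uc x) (hu2 : (dc u).card = 2) :
    0 ≤ sa i κ K {x} (κ x) := by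
  rw [sa_one H hi hκ hM hK hx]
  have h1 := LD_le_one H hv hv1
  have h2 := UD_pos hu hu2
  linarith

/-! ### the matching polynomial -/

/-- the families avoiding `T` are counted by the matching polynomial of the sites outside `T` -/
theorem Ek_mp (H : Gr P r) (hM : Mat P i K psi) (hK : K ⊆ dbL P i ∪ dbU P i) (k : ℕ) :
    Ek i K T k = (mp (Df i) (lv P i \ T)).coeff k := by
  classical
  rw [coeff_mp, Ek_eq hK]
  have h1 : ∀ F ∈ (K.powersetCard k).filter
      (fun M => Dj i M ∧ Disjoint (M.biUnion (ns i)) T),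
      F.image (ns i) ∈ (MS (lv P i \ T)).filter (fun M => M.card = k) := by
    intro F hF
    rw [mem_filter, mem_powersetCard] at hF
    obtain ⟨⟨hFK, hFk⟩, hFD, hFT⟩ := hF
    have hinj : Set.InjOn (ns i) (F : Set P) := by
      intro a ha b hb hab
      by_contra hne
      have h4 := hFD.2 a (mem_coe.1 ha) b (mem_coe.1 hb) hne
      rw [hab, disjoint_self] at h4
      have h5 := ns_card (hFD.1 (mem_coe.1 hb))
      rw [show ns i b = ∅ from h4, card_empty] at h5
      omega
    rw [mem_filter, mem_MS]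
    refine ⟨⟨?_, ?_⟩, ?_⟩
    · intro S hS
      obtain ⟨x, hx, rfl⟩ := mem_image.1 hS
      refine ⟨?_, ns_card (hFD.1 hx)⟩
      intro v hv
      rw [mem_sdiff]
      exact ⟨ns_sub H (hFD.1 hx) hv,
        fun h => disjoint_left.1 hFT (mem_biUnion.2 ⟨x, hx, hv⟩) h⟩
    · intro S hS S' hS' hne
      rw [mem_coe] at hS hS'
      obtain ⟨x, hx, rfl⟩ := mem_image.1 hS
      obtain ⟨y, hy, rfl⟩ := mem_image.1 hS'
      refine hFD.2 x hx y hy ?_
      rintro rfl
      exact hne rfl
    · rw [card_image_of_injOn hinj, hFk]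
  rw [← sum_fiberwise_of_maps_to h1]
  refine sum_congr rfl (fun M hM' => ?_)
  rw [prod_congr rfl (fun S _ => (fib_K hM hK S).symm), prod_fib]
  refine sum_congr ?_ (fun _ _ => rfl)
  rw [mem_filter, mem_MS] at hM'
  obtain ⟨⟨hM1, hM2⟩, hMk⟩ := hM'
  ext F
  rw [mem_filter, mem_filter, mem_powersetCard, mem_SR]
  constructor
  · rintro ⟨⟨⟨hFK, _⟩, hFD, _⟩, hFi⟩
    refine ⟨hFK, ?_, hFi⟩
    intro a ha b hb hab
    by_contra hne
    have h4 := hFD.2 a (mem_coe.1 ha) b (mem_coe.1 hb) hne
    rw [hab, disjoint_self] at h4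
    have h5 := ns_card (hFD.1 (mem_coe.1 hb))
    rw [show ns i b = ∅ from h4, card_empty] at h5
    omega
  · rintro ⟨hFK, hinj, hFi⟩
    have hmem : ∀ x ∈ F, ns i x ∈ M := by
      intro x hx
      rw [← hFi]
      exact mem_image_of_mem _ hx
    refine ⟨⟨⟨hFK, ?_⟩, ⟨hFK.trans hK, ?_⟩, ?_⟩, hFi⟩
    · rw [← card_image_of_injOn hinj, hFi, hMk]
    · intro x hx y hy hne
      have h6 : ns i x ≠ ns i y := fun h => hne (hinj (mem_coe.2 hx) (mem_coe.2 hy) h)
      exact hM2 (mem_coe.2 (hmem x hx)) (mem_coe.2 (hmem y hy)) h6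
    · rw [disjoint_biUnion_left]
      intro x hx
      rw [disjoint_left]
      intro v hv hvT
      exact (mem_sdiff.1 ((hM1 _ (hmem x hx)).1 hv)).2 hvT

/-- without a condition there are no signed families -/
theorem Ek_none (H : Gr P r) (hi : i ≤ r) (hM : Mat P i K psi) (hK : K ⊆ dbL P i ∪ dbU P i)
    {k : ℕ} (hk : 1 ≤ k) : Ek i K ∅ k = 0 := by
  rw [Ek_mp H hM hK, sdiff_empty, mp_lv H hi, coeff_one, if_neg (by omega)]

end Pool.Agent.GaussPoset.EK
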