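import Pool.Agent.W_448e_h97.EE

/-! Families of unmatched elements: the classes are the stars (MP_448cb3_co). -/

namespace Pool.Agent.GaussPoset.EK

set_option linter.unusedSectionVars false

open Finset Win St Polynomial

universe u

variable {P : Type u} [Fintype P] [PartialOrder P] [DecidableEq P] {r i : ℕ}

variable {ι : Type*} [DecidableEq ι] {κ : P → ι}

variable {K : Finset P} {psi : P → P} {T T1 T2 : Finset P}

/-- sharing a site is transitive on the unmatched elements -/
structure HS (r i : ℕ) (K : Finset P) (psi : P → P) : Prop where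
  H : Gr P r
  hi : i ≤ r
  mat : Mat P i K psi
  sub : K ⊆ dbL P i ∪ dbU P i
  trans : ∀ x ∈ K, ∀ y ∈ K, ∀ z ∈ K, ¬ Disjoint (ns i x) (ns i y) → ¬ Disjoint (ns i y) (ns i z) →
    ¬ Disjoint (ns i x) (ns i z)

open Classical in
/-- the star of an unmatched element -/
noncomputable def star (i : ℕ) (K : Finset P) (x : P) : Finset P :=
  K.filter (fun y => ¬ Disjoint (ns i x) (ns i y))

lemma mem_star {x y : P} : y ∈ star i K x ↔ y ∈ K ∧ ¬ Disjoint (ns i x) (ns i y) := by
  classical
  unfold star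
  rw [mem_filter]

lemma not_disj_self {x : P} (hx : x ∈ dbL P i ∪ dbU P i) : ¬ Disjoint (ns i x) (ns i x) := by
  rw [disjoint_self]
  exact (ns_ne hx).ne_empty

/-- two unmatched elements are in the same star if and only if they share a site -/
lemma HS.star_eq (h : HS r i K psi) {x y : P} (hx : x ∈ K) (hy : y ∈ K) :
    star i K x = star i K y ↔ ¬ Disjoint (ns i x) (ns i y) := by
  constructor
  · intro h1
    have h2 : y ∈ star i K x := by
      rw [h1]
      exact mem_star.2 ⟨hy, not_disj_self (h.sub hy)⟩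
    exact (mem_star.1 h2).2
  · intro h1
    ext z
    rw [mem_star, mem_star]
    constructor
    · rintro ⟨hz, h2⟩
      exact ⟨hz, h.trans y hy x hx z hz (fun h3 => h1 h3.symm) h2⟩
    · rintro ⟨hz, h2⟩
      exact ⟨hz, h.trans x hx y hy z hz h1 h2⟩

lemma HS.same (h : HS r i K psi) : ∀ x ∈ K, ∀ y ∈ K, star i K x = star i K y →
    ¬ Disjoint (ns i x) (ns i y) :=
  fun _ hx _ hy hxy => (h.star_eq hx hy).1 hxy

lemma HS.diff (h : HS r i K psi) : ∀ x ∈ K, ∀ y ∈ K, star i K x ≠ star i K y →
    Disjoint (ns i x) (ns i y) := by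
  intro x hx y hy hxy
  by_contra h1
  exact hxy ((h.star_eq hx hy).2 h1)

/-- the signed number of the elements of the star `s` which avoid `T` -/
noncomputable def sst (i : ℕ) (K T s : Finset P) : ℤ := ss (ns i) (sgn i) (star i K) K T s

open Classical in
lemma sst_eq (s : Finset P) : sst i K T s =
    ∑ x ∈ K.filter (fun x => star i K x = s ∧ Disjoint (ns i x) T), sgn i x := by
  unfold sst ss
  refine sum_congr ?_ (fun _ _ => rfl)
  ext x
  simp only [mem_filter]

/-- THE PRODUCT FORMULA over the stars -/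
theorem HS.prod (h : HS r i K psi) (T : Finset P) :
    G (ns i) (sgn i) K T = ∏ s ∈ K.image (star i K), (1 + C (sst i K T s) * X) :=
  G_prod _ K (fun _ hx => mem_image_of_mem _ hx) h.same h.diff

/-- every star has signed number zero -/
theorem HS.zero (h : HS r i K psi) (s : Finset P) :
    ∑ x ∈ K.filter (fun x => star i K x = s), sgn i x = 0 := by
  classical
  by_cases hs : s ∈ K.image (star i K)
  · have h1 : G (ns i) (sgn i) K ∅ = 1 := by
      ext k
      rw [← Ek_coeff]
      rcases Nat.eq_zero_or_pos k with rfl | hk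
      · rw [Ek_mp h.H h.mat h.sub, coeff_zero_mp, coeff_one_zero]
      · rw [Ek_none h.H h.hi h.mat h.sub hk, coeff_one, if_neg (by omega)]
    rw [h.prod ∅] at h1
    have h2 : ∀ (I : Finset (Finset P)) (p : Finset P → ℤ[X]), (∀ a ∈ I, (p a).coeff 0 = 1) →
        ∏ a ∈ I, p a = 1 → ∀ a ∈ I, p a = 1 := by
      intro I p h0 h a ha
      rw [← mul_prod_erase I p ha] at h
      exact eq_one_of_mul h (h0 a ha)
    have h3 := h2 _ _ (fun a _ => by simp) h1 s hs
    have h4 : (1 + C (sst i K ∅ s) * X : ℤ[X]).coeff 1 = 0 := by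
      rw [h3, coeff_one, if_neg (by norm_num)]
    have h5 : sst i K ∅ s = 0 := by
      simpa [coeff_one] using h4
    rw [sst_eq] at h5
    rw [← h5]
    refine sum_congr ?_ (fun _ _ => rfl)
    refine filter_congr (fun x _ => ?_)
    exact ⟨fun h => ⟨h, disjoint_empty_right _⟩, fun h => h.1⟩
  · rw [filter_false_of_mem, sum_empty]
    intro x hx hxs
    exact hs (hxs ▸ mem_image_of_mem _ hx)

/-- only the stars which meet `T` contribute -/
theorem HS.prod_J (h : HS r i K psi) (T : Finset P) (J : Finset (Finset P))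
    (hJ : ∀ x ∈ K, ¬ Disjoint (ns i x) T → star i K x ∈ J) :
    G (ns i) (sgn i) K T = ∏ s ∈ J, (1 + C (sst i K T s) * X) :=
  G_prod_J J K h.same h.diff (fun x hx hn => by
    by_contra h1
    exact hn (hJ x hx h1)) (fun s _ => h.zero s)

/-- `T` meets at most the stars `s`, `s'` -/
theorem HS.two (h : HS r i K psi) {s s' : Finset P} (hne : s ≠ s')
    (hJ : ∀ x ∈ K, ¬ Disjoint (ns i x) T → star i K x = s ∨ star i K x = s') :
    Ek i K T 0 = 1 ∧ Ek i K T 1 = sst i K T s + sst i K T s' ∧
      Ek i K T 2 = sst i K T s * sst i K T s' ∧ ∀ k, 3 ≤ k → Ek i K T k = 0 := by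
  refine E_two hne h.same h.diff ?_ (fun c _ _ => h.zero c)
  intro x hx h1 h2
  by_contra h3
  rcases hJ x hx h3 with h4 | h4
  · exact h1 h4
  · exact h2 h4

/-- `T` meets at most the star `s` -/
theorem HS.one (h : HS r i K psi) {s : Finset P}
    (hJ : ∀ x ∈ K, ¬ Disjoint (ns i x) T → star i K x = s) :
    Ek i K T 0 = 1 ∧ Ek i K T 1 = sst i K T s ∧ ∀ k, 2 ≤ k → Ek i K T k = 0 := by
  refine E_one h.same h.diff ?_ (fun c _ => h.zero c)
  intro x hx h1
  by_contra h3
  exact h1 (hJ x hx h3)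

/-- `T` meets no unmatched element -/
theorem HS.none (h : HS r i K psi) (hJ : ∀ x ∈ K, Disjoint (ns i x) T) :
    Ek i K T 0 = 1 ∧ ∀ k, 1 ≤ k → Ek i K T k = 0 :=
  E_zero h.same h.diff hJ (fun c => h.zero c)

/-- a site meets at most one star -/
lemma HS.star_site (h : HS r i K psi) {x y v : P} (hx : x ∈ K) (hy : y ∈ K) (hvx : v ∈ ns i x)
    (hvy : v ∈ ns i y) : star i K x = star i K y :=
  (h.star_eq hx hy).2 (not_disjoint_iff.2 ⟨v, hvx, hvy⟩)

/-- from components to stars -/
lemma HK.toHS (h : HK r i κ K psi) : HS r i K psi := by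
  refine ⟨h.H, h.hi, h.mat, h.sub, ?_⟩
  intro x hx y hy z hz h1 h2
  have key : ∀ p ∈ K, ∀ q ∈ K, ¬ Disjoint (ns i p) (ns i q) → κ p = κ q := by
    intro p hp q hq hn
    by_contra h3
    exact hn (h.diff p hp q hq h3)
  exact h.same x hx z hz ((key x hx y hy h1).trans (key y hy z hz h2))

/-- unmatched elements of one star are in one component -/
lemma star_comp (H : Gr P r) (hκ : Split (i + 1) κ) (hK : K ⊆ dbL P i ∪ dbU P i) {x y : P}
    (hx : x ∈ K) (hy : y ∈ K) (h : ¬ Disjoint (ns i x) (ns i y)) : κ x = κ y := by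
  by_contra h1
  exact h (ns_diff H hκ (hK hx) (hK hy) h1)

end Pool.Agent.GaussPoset.EK
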