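import Pool.Agent.W_448e_h97.EF
import Pool.Agent.W_448s6_h67.PcA

/-! The unmatched elements of a component from the pattern of its defects (MP_448cb3_co). -/

namespace Pool.Agent.GaussPoset.EK

set_option linter.unusedSectionVars false

open Finset Win St Polynomial

universe u

variable {P : Type u} [Fintype P] [PartialOrder P] [DecidableEq P] {r i : ℕ}

variable {ι : Type*} [DecidableEq ι] {κ : P → ι}

variable {K : Finset P} {psi : P → P} {T T1 T2 : Finset P}

variable {a : ι} {m : ℕ} {x : ℕ → P} {c : ℕ → ℤ} {β : ℤ}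

/-- the sites of the component `a` as a path with the defects `c`, `β` -/
structure Row (i : ℕ) (κ : P → ι) (a : ι) (m : ℕ) (x : ℕ → P) (c : ℕ → ℤ) (β : ℤ) : Prop where
  lev_x : ∀ k, k ≤ m → lev (x k) = i
  inj : ∀ k l, k ≤ m → l ≤ m → x k = x l → k = l
  kap : ∀ k, k ≤ m → κ (x k) = a
  surj : ∀ v, lev v = i → κ v = a → ∃ k, k ≤ m ∧ x k = v
  df : ∀ k l, k < l → l ≤ m →
    Df i {x k, x l} = if l = k + 1 then c k else if k = 0 ∧ l = m then β else 0

/-- an unmatched element of the component -/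
lemma Row.pair (W : Row i κ a m x c β) (R : Red P i K psi) (H : Gr P r) (hκ : Split (i + 1) κ)
    {k : P} (hk : k ∈ K) (hka : κ k = a) :
    ∃ p q, p < q ∧ q ≤ m ∧ ns i k = {x p, x q} ∧
      ((q = p + 1 ∧ c p ≠ 0) ∨ (p = 0 ∧ q = m ∧ q ≠ p + 1 ∧ β ≠ 0)) := by
  have hD := R.sub hk
  obtain ⟨u, v, huv, hns⟩ := card_eq_two.1 (ns_card hD)
  have hu : u ∈ ns i k := by rw [hns]; exact mem_insert_self _ _
  have hv : v ∈ ns i k := by rw [hns]; exact mem_insert_of_mem (mem_singleton_self _)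
  obtain ⟨p, hp, rfl⟩ := W.surj u (kap_ns' H hκ hD hu).2 ((kap_ns' H hκ hD hu).1.trans hka)
  obtain ⟨q, hq, rfl⟩ := W.surj v (kap_ns' H hκ hD hv).2 ((kap_ns' H hκ hD hv).1.trans hka)
  have hne := R.Df_ne hk
  have hpq : p ≠ q := by
    rintro rfl
    exact huv rfl
  have key : ∀ p q, p < q → q ≤ m → ns i k = {x p, x q} → ∃ p q, p < q ∧ q ≤ m ∧
      ns i k = {x p, x q} ∧
      ((q = p + 1 ∧ c p ≠ 0) ∨ (p = 0 ∧ q = m ∧ q ≠ p + 1 ∧ β ≠ 0)) := by
    intro p q hpq hq hns
    refine ⟨p, q, hpq, hq, hns, ?_⟩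
    rw [hns, W.df p q hpq hq] at hne
    by_cases h1 : q = p + 1
    · rw [if_pos h1] at hne
      exact Or.inl ⟨h1, hne⟩
    · rw [if_neg h1] at hne
      by_cases h2 : p = 0 ∧ q = m
      · rw [if_pos h2] at hne
        exact Or.inr ⟨h2.1, h2.2, h1, hne⟩
      · rw [if_neg h2] at hne
        exact absurd rfl hne
  rcases Nat.lt_or_ge p q with h | h
  · exact key p q h hq hns
  · refine key q p (by omega) hp ?_
    rw [hns, pair_comm]

/-- at most two pairs -/
lemma small_of_two (R : Red P i K psi) (H : Gr P r) (hκ : Split (i + 1) κ) (T1 T2 : Finset P)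
    (h : ∀ k ∈ K, κ k = a → ns i k = T1 ∨ ns i k = T2) (h2 : |Df i T1| + |Df i T2| ≤ 2) :
    Small i κ a := by
  classical
  right
  rw [← R.card_comp H hκ a]
  have h3 : K.filter (fun x => κ x = a) ⊆
      K.filter (fun x => ns i x = T1) ∪ K.filter (fun x => ns i x = T2) := by
    intro k hk
    rw [mem_filter] at hk
    rcases h k hk.1 hk.2 with h4 | h4
    · exact mem_union_left _ (mem_filter.2 ⟨hk.1, h4⟩)
    · exact mem_union_right _ (mem_filter.2 ⟨hk.1, h4⟩)
  have h4 := (card_le_card h3).trans (card_union_le _ _)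
  have h5 := R.fib T1
  have h6 := R.fib T2
  omega

/-- two stars at the two ends of the row -/
def Pat6 (m : ℕ) (c : ℕ → ℤ) (β : ℤ) : Prop :=
  5 ≤ m ∧ β = 0 ∧ c 0 = 1 ∧ c 1 = -1 ∧ c (m - 2) = -1 ∧ c (m - 1) = 1 ∧
    ∀ k, 2 ≤ k → k + 2 < m → c k = 0

/-- the exceptional pattern with seven sites -/
def Pat8 (m : ℕ) (c : ℕ → ℤ) (β : ℤ) : Prop :=
  m = 6 ∧ β = 0 ∧ c 0 = 1 ∧ c 1 = -1 ∧ c 4 = -1 ∧ c 5 = 1 ∧
    ((c 2 = -1 ∧ c 3 = 1) ∨ (c 2 = 1 ∧ c 3 = -1))

theorem Row.small (W : Row i κ a m x c β) (H : Gr P r) (hκ : Split (i + 1) κ)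
    (hp : PcPat m c β) : Small i κ a ∨ Pat6 m c β ∨ Pat8 m c β := by
  classical
  obtain ⟨K, psi, R⟩ := exists_red P i
  rcases hp with ⟨h1, h2⟩ | ⟨h1, h2, h3, h4⟩ | ⟨h1, h2, h3, h4⟩ | ⟨h1, h2, h3, h4, h5⟩ |
    ⟨h1, h2, h3, h4, h5⟩ | h1 | ⟨h1, h2, h3, h4⟩ | h1
  · left
    refine small_of_two R H hκ ∅ ∅ ?_ ?_
    · intro k hk hka
      exfalso
      obtain ⟨p, q, h3, h4, h5, h6⟩ := W.pair R H hκ hk hka
      rcases h6 with ⟨h6, h7⟩ | ⟨_, _, _, h7⟩
      · exact h7 (h2 p (by omega))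
      · exact h7 h1
    · have h3 : Df i (∅ : Finset P) = 0 := by
        rw [← fib_K R.mat R.sub ∅]
        have h4 : K.filter (fun x => ns i x = ∅) = ∅ := by
          rw [filter_eq_empty_iff]
          intro k hk h5
          exact (ns_ne (R.sub hk)).ne_empty h5
        rw [h4, sum_empty]
      rw [h3]
      norm_num
  · left
    refine small_of_two R H hκ {x 0, x 1} {x 0, x m} ?_ ?_
    · intro k hk hka
      obtain ⟨p, q, h5, h6, h7, h8⟩ := W.pair R H hκ hk hka
      rcases h8 with ⟨h8, h9⟩ | ⟨h8, h9, _, _⟩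
      · left
        have hp0 : p = 0 := by
          by_contra h10
          exact h9 (h4 p (by omega) (by omega))
        subst hp0
        rw [h7, h8]
      · right
        rw [h7, h8, h9]
    · rw [W.df 0 1 (by omega) (by omega), W.df 0 m (by omega) le_rfl, if_pos rfl,
        if_neg (by omega), if_pos ⟨rfl, rfl⟩, h2, h3]
      norm_num
  · left
    refine small_of_two R H hκ {x (m - 1), x m} {x 0, x m} ?_ ?_
    · intro k hk hka
      obtain ⟨p, q, h5, h6, h7, h8⟩ := W.pair R H hκ hk hka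
      rcases h8 with ⟨h8, h9⟩ | ⟨h8, h9, _, _⟩
      · left
        have hp0 : p = m - 1 := by
          by_contra h10
          exact h9 (h4 p (by omega))
        rw [h7, h8, hp0, show m - 1 + 1 = m by omega]
      · right
        rw [h7, h8, h9]
    · rw [W.df (m - 1) m (by omega) (by omega), W.df 0 m (by omega) le_rfl, if_pos (by omega),
        if_neg (by omega), if_pos ⟨rfl, rfl⟩, h2, h3]
      norm_num
  · left
    refine small_of_two R H hκ {x 0, x 1} {x 1, x 2} ?_ ?_
    · intro k hk hka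
      obtain ⟨p, q, h6, h7, h8, h9⟩ := W.pair R H hκ hk hka
      rcases h9 with ⟨h9, h10⟩ | ⟨_, _, _, h10⟩
      · have hp : p = 0 ∨ p = 1 := by
          by_contra h11
          exact h10 (h5 p (by omega) (by omega))
        rcases hp with hp | hp
        · left
          rw [h8, h9, hp]
        · right
          rw [h8, h9, hp]
      · exact absurd h2 h10
    · rw [W.df 0 1 (by omega) (by omega), W.df 1 2 (by omega) (by omega), if_pos rfl, if_pos rfl,
        h3, h4]
      norm_num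
  · left
    refine small_of_two R H hκ {x (m - 1), x m} {x (m - 2), x (m - 1)} ?_ ?_
    · intro k hk hka
      obtain ⟨p, q, h6, h7, h8, h9⟩ := W.pair R H hκ hk hka
      rcases h9 with ⟨h9, h10⟩ | ⟨_, _, _, h10⟩
      · have hp : p = m - 1 ∨ p = m - 2 := by
          by_contra h11
          exact h10 (h5 p (by omega))
        rcases hp with hp | hp
        · left
          rw [h8, h9, hp, show m - 1 + 1 = m by omega]
        · right
          rw [h8, h9, hp, show m - 2 + 1 = m - 1 by omega]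
      · exact absurd h2 h10
    · rw [W.df (m - 1) m (by omega) (by omega), W.df (m - 2) (m - 1) (by omega) (by omega),
        if_pos (by omega), if_pos (by omega), h3, h4]
      norm_num
  · exact Or.inr (Or.inl h1)
  · left
    left
    have h5 : st i (cext (i + 1) κ a) ⊆ (range 3).image x := by
      intro v hv
      rw [mem_sites hκ] at hv
      obtain ⟨k, hk, rfl⟩ := W.surj v hv.1 hv.2
      exact mem_image_of_mem x (mem_range.2 (by omega))
    have h6 := (card_le_card h5).trans card_image_le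
    rw [card_range] at h6
    exact h6
  · exact Or.inr (Or.inr h1)

/-- the two stars: every unmatched element is at one of the two ends -/
lemma Row.ends (W : Row i κ a m x c β) (R : Red P i K psi) (H : Gr P r) (hκ : Split (i + 1) κ)
    (hp : Pat6 m c β) {k : P} (hk : k ∈ K) (hka : κ k = a) :
    (x 1 ∈ ns i k ∧ ns i k ⊆ {x 0, x 1, x 2}) ∨
      (x (m - 1) ∈ ns i k ∧ ns i k ⊆ {x (m - 2), x (m - 1), x m}) := by
  obtain ⟨h1, h2, _, _, _, _, h3⟩ := hp
  obtain ⟨p, q, h6, h7, h8, h9⟩ := W.pair R H hκ hk hka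
  rcases h9 with ⟨h9, h10⟩ | ⟨_, _, _, h10⟩
  · have hp : p = 0 ∨ p = 1 ∨ p = m - 2 ∨ p = m - 1 := by
      by_contra h11
      exact h10 (h3 p (by omega) (by omega))
    subst h9
    rcases hp with hp | hp | hp | hp
    · subst hp
      left
      rw [h8]
      refine ⟨by simp, ?_⟩
      intro v hv
      simp only [mem_insert, mem_singleton] at hv ⊢
      tauto
    · subst hp
      left
      rw [h8]
      refine ⟨by simp, ?_⟩
      intro v hv
      simp only [mem_insert, mem_singleton] at hv ⊢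
      tauto
    · subst hp
      right
      rw [h8, show m - 2 + 1 = m - 1 by omega]
      refine ⟨by simp, ?_⟩
      intro v hv
      simp only [mem_insert, mem_singleton] at hv ⊢
      tauto
    · subst hp
      right
      rw [h8, show m - 1 + 1 = m by omega]
      refine ⟨by simp, ?_⟩
      intro v hv
      simp only [mem_insert, mem_singleton] at hv ⊢
      tauto
  · exact absurd h2 h10

/-- the two stars: sharing a site is transitive -/
theorem Row.trans6 (W : Row i κ a m x c β) (R : Red P i K psi) (H : Gr P r)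
    (hκ : Split (i + 1) κ) (hp : Pat6 m c β) {k k' k'' : P} (hk : k ∈ K) (hk' : k' ∈ K)
    (hk'' : k'' ∈ K) (h : κ k = a) (h' : κ k' = a) (h'' : κ k'' = a)
    (h1 : ¬ Disjoint (ns i k) (ns i k')) (h2 : ¬ Disjoint (ns i k') (ns i k'')) :
    ¬ Disjoint (ns i k) (ns i k'') := by
  have hm := hp.1
  have hne : ∀ v, v ∈ ({x 0, x 1, x 2} : Finset P) → v ∈ ({x (m - 2), x (m - 1), x m} : Finset P) →
      False := by
    intro v h3 h4
    simp only [mem_insert, mem_singleton] at h3 h4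
    rcases h3 with rfl | rfl | rfl <;> rcases h4 with h4 | h4 | h4 <;>
      (have := W.inj _ _ (by omega) (by omega) h4; omega)
  have key : ∀ k ∈ K, ∀ k' ∈ K, κ k = a → κ k' = a → ¬ Disjoint (ns i k) (ns i k') →
      (x 1 ∈ ns i k ∧ x 1 ∈ ns i k') ∨ (x (m - 1) ∈ ns i k ∧ x (m - 1) ∈ ns i k') := by
    intro k hk k' hk' h h' h1
    rw [not_disjoint_iff] at h1
    obtain ⟨v, hv, hv'⟩ := h1
    rcases W.ends R H hκ hp hk h with h3 | h3 <;> rcases W.ends R H hκ hp hk' h' with h4 | h4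
    · exact Or.inl ⟨h3.1, h4.1⟩
    · exact (hne v (h3.2 hv) (h4.2 hv')).elim
    · exact (hne v (h4.2 hv') (h3.2 hv)).elim
    · exact Or.inr ⟨h3.1, h4.1⟩
  have hx1 : x 1 ∉ ({x (m - 2), x (m - 1), x m} : Finset P) := fun h =>
    hne _ (by simp) h
  have hxm : x (m - 1) ∉ ({x 0, x 1, x 2} : Finset P) := fun h => hne _ h (by simp)
  rcases key k hk k' hk' h h' h1 with h3 | h3 <;>
    rcases key k' hk' k'' hk'' h' h'' h2 with h4 | h4
  · exact not_disjoint_iff.2 ⟨x 1, h3.1, h4.2⟩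
  · exfalso
    rcases W.ends R H hκ hp hk' h' with h5 | h5
    · exact hxm (h5.2 h4.1)
    · exact hx1 (h5.2 h3.2)
  · exfalso
    rcases W.ends R H hκ hp hk' h' with h5 | h5
    · exact hxm (h5.2 h3.2)
    · exact hx1 (h5.2 h4.1)
  · exact not_disjoint_iff.2 ⟨x (m - 1), h3.1, h4.2⟩

/-- the hypothesis on the stars from the rows -/
theorem Red.toHS (R : Red P i K psi) (H : Gr P r) (hi : i ≤ r) (hκ : Split (i + 1) κ)
    (hs : ∀ a : ι, Small i κ a ∨ ∃ (m : ℕ) (x : ℕ → P) (c : ℕ → ℤ) (β : ℤ),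
      Row i κ a m x c β ∧ Pat6 m c β) : HS r i K psi := by
  refine ⟨H, hi, R.mat, R.sub, ?_⟩
  intro x hx y hy z hz h1 h2
  have e1 := star_comp H hκ R.sub hx hy h1
  have e2 := star_comp H hκ R.sub hy hz h2
  rcases hs (κ y) with h3 | ⟨m, w, c, β, W, hp⟩
  · exact R.same_of_small H hi hκ h3 hx hz e1 e2.symm
  · exact W.trans6 R H hκ hp hx hy hz e1 rfl e2.symm h1 h2

end Pool.Agent.GaussPoset.EK
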