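import Pool.Agent.W_448e_h97.EG
import Pool.Agent.W_448wd_h84.WdO
import Pool.Agent.W_448so_h63.GD

/-! Case B: the unmatched elements of the window `j` (MP_448cb3_co). -/

namespace Pool.Agent.GaussPoset.EK

set_option linter.unusedSectionVars false

open Finset Win St Polynomial Wd

universe u

variable {P : Type u} [Fintype P] [PartialOrder P] [DecidableEq P] {r i j : ℕ}

variable {ι : Type*} [DecidableEq ι] {κ : P → ι}

variable {K : Finset P} {psi : P → P}

lemma kap_of_cext {k : P} {a : ι} (hk : k ∈ dbL P i ∪ dbU P i) (h : k ∈ cext (i + 1) κ a) :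
    κ k = a := by
  refine (mem_cext.1 h) k le_rfl ?_
  rcases mem_union.1 hk with h1 | h1
  · have := (mem_dbL.1 h1).1
    omega
  · have := (mem_dbU.1 h1).1
    omega

/-- a small component is a star -/
theorem Red.star_small (R : Red P i K psi) (H : Gr P r) (hi : i ≤ r) (hκ : Split (i + 1) κ)
    {a : ι} (hs : Small i κ a) : K2.Star i (cext (i + 1) κ a) K where
  two := by
    intro k hk hkC k' hk' hkC' _
    exact not_disjoint_iff.1 (R.same_of_small H hi hκ hs hk hk' (kap_of_cext (R.sub hk) hkC)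
      (kap_of_cext (R.sub hk') hkC'))
  three := by
    intro k hk hkC k' hk' hkC' k'' hk'' hkC'' h1 h2 h3 x hx hx' hx''
    exact R.three_of_small H hκ hs hk hk' hk'' (kap_of_cext (R.sub hk) hkC)
      (kap_of_cext (R.sub hk') hkC') (kap_of_cext (R.sub hk'') hkC'') h1 h2 h3 hx hx' hx''

/-- the rows of case B -/
theorem NJ.row (h : NJ P r j) (hj : 2 ≤ j) (t : Tops P) :
    ∃ (m : ℕ) (x : ℕ → P) (c : ℕ → ℤ) (β : ℤ), Row j (topOf : P → Tops P) t m x c β ∧
      PcPat m c β ∧ (β ≠ 0 → (uc (x 0)).card = 1 ∧ (uc (x m)).card = 1) ∧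
      (∀ a, 0 < a → a < m → c (a - 1) = -1 → c a = -1 → (pen (x a)).card = 1) := by
  obtain ⟨lo, hi, e, C⟩ := Cp.comp_exists h.g.H t.2 h.g.hr h.g.good
  obtain ⟨c, β, h1, h2, h3, h4⟩ := h.pieces hj C
  have hlo := C.lo_le j le_rfl
  have htop : ∀ v : P, v ≤ (t : P) → lev v = j → topOf v = t := by
    intro v hv hl
    refine Subtype.ext ?_
    exact Hul.top_unique (h.nj (by omega)) (topOf v).2 t.2 (le_topOf v) hv
  refine ⟨hi j - lo j, fun a => e j (lo j + a), c, β, ⟨?_, ?_, ?_, ?_, ?_⟩, h1, ?_, ?_⟩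
  · exact fun k hk => C.lev_e j (lo j + k) le_rfl (by omega) (by omega)
  · intro k l hk hl hkl
    have := C.inj j (lo j + k) (lo j + l) le_rfl (by omega) (by omega) (by omega) (by omega) hkl
    omega
  · intro k hk
    exact htop _ (C.le_t j (lo j + k) le_rfl (by omega) (by omega))
      (C.lev_e j (lo j + k) le_rfl (by omega) (by omega))
  · intro v hv hvt
    have hvle : v ≤ (t : P) := by
      rw [← hvt]
      exact le_topOf v
    obtain ⟨s, s1, s2, s3⟩ := C.surj v hvle (by omega)
    rw [hv] at s1 s2 s3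
    exact ⟨s - lo j, by omega, by rw [show lo j + (s - lo j) = s by omega]; exact s3⟩
  · intro k l hkl hl
    have hne : e j (lo j + k) ≠ e j (lo j + l) := by
      intro h5
      have := C.inj j _ _ le_rfl (by omega) (by omega) (by omega) (by omega) h5
      omega
    rw [Df_pair h.g.H (C.lev_e j (lo j + k) le_rfl (by omega) (by omega)) hne,
      h2 (lo j + k) (lo j + l) (by omega) (by omega) (by omega)]
    by_cases h5 : l = k + 1
    · rw [if_pos (by omega), if_pos h5, show lo j + k - lo j = k by omega]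
    · rw [if_neg (by omega), if_neg h5]
      by_cases h6 : k = 0 ∧ l = hi j - lo j
      · rw [if_pos (by omega), if_pos h6]
      · rw [if_neg (by omega), if_neg h6]
  · intro hb
    have h5 := h3 hb
    show (uc (e j (lo j + 0))).card = 1 ∧ (uc (e j (lo j + (hi j - lo j)))).card = 1
    rw [add_zero, show lo j + (hi j - lo j) = hi j by omega]
    exact h5
  · intro a ha1 ha2 ha3 ha4
    refine h4 (lo j + a) (by omega) (by omega) ?_ ?_
    · rw [show lo j + a - 1 - lo j = a - 1 by omega]
      exact ha3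
    · rw [show lo j + a - lo j = a by omega]
      exact ha4

/-- CASE B: every component is small, or has two stars, or is exceptional with seven sites -/
theorem NJ.small (h : NJ P r j) (hj : 2 ≤ j) (t : Tops P) :
    Small j (topOf : P → Tops P) t ∨ ∃ (m : ℕ) (x : ℕ → P) (c : ℕ → ℤ) (β : ℤ),
      Row j (topOf : P → Tops P) t m x c β ∧ (Pat6 m c β ∨ Pat8 m c β) := by
  obtain ⟨m, x, c, β, W, hp, _, _⟩ := NJ.row h hj t
  rcases W.small h.g.H h.split hp with h1 | h1 | h1
  · exact Or.inl h1
  · exact Or.inr ⟨m, x, c, β, W, Or.inl h1⟩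
  · exact Or.inr ⟨m, x, c, β, W, Or.inr h1⟩

end Pool.Agent.GaussPoset.EK
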