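import Pool.Agent.W_448e_h97.EG
import Pool.Agent.W_448qd_h16.QG

/-! The first order identities for star components: quads and pendants between two stars
(MP_448cb3_co). -/

namespace Pool.Agent.GaussPoset.EK

set_option linter.unusedSectionVars false

open Finset Win St Polynomial Win.T6N

universe u

variable {P : Type u} [Fintype P] [PartialOrder P] [DecidableEq P] {r i : ℕ}

variable {K : Finset P} {psi : P → P} {T : Finset P}

/-- the unmatched elements form stars, and at a site there are at most two pairs -/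
structure HT (r i : ℕ) (K : Finset P) (psi : P → P) : Prop where
  hs : HS r i K psi
  red : Red P i K psi
  three : ∀ k ∈ K, ∀ k' ∈ K, ∀ k'' ∈ K, k ≠ k' → k ≠ k'' → k' ≠ k'' →
    ∀ v, v ∈ ns i k → v ∈ ns i k' → v ∈ ns i k'' →
    ns i k = ns i k' ∨ ns i k = ns i k'' ∨ ns i k' = ns i k''

/-- the polynomial `Fx` is the generating polynomial -/
lemma HS.Fx_eq (h : HS r i K psi) (T : Finset P) : Fx i T = G (ns i) (sgn i) K T := by
  ext k
  unfold Fx
  rw [← Ek_mp h.H h.mat h.sub, Ek_coeff]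

lemma HS.Fx_coeff (h : HS r i K psi) (T : Finset P) (k : ℕ) : (Fx i T).coeff k = Ek i K T k := by
  rw [h.Fx_eq, Ek_coeff]

open Classical in
/-- the stars which meet `T` -/
noncomputable def JT (i : ℕ) (K T : Finset P) : Finset (Finset P) :=
  (K.filter (fun k => ¬ Disjoint (ns i k) T)).image (star i K)

lemma mem_JT {s : Finset P} : s ∈ JT i K T ↔ ∃ k ∈ K, ¬ Disjoint (ns i k) T ∧ star i K k = s := by
  classical
  unfold JT
  rw [mem_image]
  constructor
  · rintro ⟨k, hk, h⟩
    rw [mem_filter] at hk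
    exact ⟨k, hk.1, hk.2, h⟩
  · rintro ⟨k, hk, h1, h⟩
    exact ⟨k, mem_filter.2 ⟨hk, h1⟩, h⟩

lemma HS.card_JT (h : HS r i K psi) (T : Finset P) : (JT i K T).card ≤ T.card := by
  classical
  have h1 : JT i K T ⊆ T.image
      (fun v => if hv : ∃ k ∈ K, v ∈ ns i k then star i K hv.choose else ∅) := by
    intro s hs
    obtain ⟨k, hk, hkT, rfl⟩ := mem_JT.1 hs
    obtain ⟨v, hv, hvT⟩ := not_disjoint_iff.1 hkT
    rw [mem_image]
    refine ⟨v, hvT, ?_⟩
    have hex : ∃ k ∈ K, v ∈ ns i k := ⟨k, hk, hv⟩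
    rw [dif_pos hex]
    exact h.star_site hex.choose_spec.1 hk hex.choose_spec.2 hv
  exact (card_le_card h1).trans card_image_le

lemma HS.Fx_natDegree (h : HS r i K psi) (T : Finset P) : (Fx i T).natDegree ≤ T.card := by
  rw [h.Fx_eq, h.prod_J T (JT i K T) (fun x hx hn => mem_JT.2 ⟨x, hx, hn, rfl⟩)]
  refine (natDegree_prod_le _ _).trans ?_
  refine (sum_le_card_nsmul _ _ 1 fun s _ => ?_).trans ?_
  · refine (natDegree_add_le _ _).trans (max_le ?_ ?_)
    · rw [natDegree_one]
      exact Nat.zero_le 1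
    · exact (natDegree_C_mul_le _ _).trans natDegree_X_le
  · rw [smul_eq_mul, mul_one]
    exact h.card_JT T

/-- if `T` contains the sites of an unmatched element of the only star which it meets, then `Fx T` is
one -/
lemma HS.Fx_one (h : HS r i K psi) {k : P} (hk : k ∈ K) (hkT : ns i k ⊆ T)
    (hJ : ∀ x ∈ K, ¬ Disjoint (ns i x) T → star i K x = star i K k) : Fx i T = 1 := by
  classical
  rw [h.Fx_eq, h.prod_J T {star i K k} (fun x hx hn => mem_singleton.2 (hJ x hx hn)),
    prod_singleton]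
  have h1 : sst i K T (star i K k) = 0 := by
    rw [sst_eq, filter_false_of_mem, sum_empty]
    rintro x hx ⟨h2, h3⟩
    have h4 := (h.star_eq hx hk).1 h2
    exact h4 (disjoint_of_subset_right hkT h3)
  rw [h1, C_0, zero_mul, add_zero]

lemma Red.exists_of_Df (R : Red P i K psi) {T : Finset P} (hT : Df i T ≠ 0) :
    ∃ k ∈ K, ns i k = T := by
  have h1 := R.fib T
  have h2 : 0 < (K.filter (fun x => ns i x = T)).card := by
    have h3 : (0 : ℤ) < |Df i T| := abs_pos.2 hT
    omega
  obtain ⟨k, hk⟩ := card_pos.1 h2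
  rw [mem_filter] at hk
  exact ⟨k, hk.1, hk.2⟩

lemma pair_inj {v y y' : P} (hy : y ≠ v) (h : ({v, y} : Finset P) = {v, y'}) : y = y' := by
  have h1 : y ∈ ({v, y'} : Finset P) := by
    rw [← h]
    exact mem_insert_of_mem (mem_singleton_self y)
  rw [mem_insert, mem_singleton] at h1
  exact h1.resolve_left hy

/-- the site sums have degree at most two -/
theorem HT.gx_deg (h : HT r i K psi) (v : P) : (gx (Df i) (lv P i) v).natDegree ≤ 2 := by
  classical
  have key : ∀ y, Df i {v, y} ≠ 0 → ∃ k ∈ K, ns i k = {v, y} := fun y hy => h.red.exists_of_Df hy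
  set N := ((lv P i).erase v).filter (fun y => Df i {v, y} ≠ 0) with hN
  have hNc : N.card ≤ 2 := by
    by_contra hcon
    obtain ⟨a, ha, b, hb, c, hc, hab, hac, hbc⟩ := two_lt_card.1 (not_le.1 hcon)
    rw [hN, mem_filter, mem_erase] at ha hb hc
    obtain ⟨ka, hka, na⟩ := key a ha.2
    obtain ⟨kb, hkb, nb⟩ := key b hb.2
    obtain ⟨kc, hkc, nc⟩ := key c hc.2
    have e1 : ka ≠ kb := by
      rintro rfl
      exact hab (pair_inj ha.1.1 (na.symm.trans nb))
    have e2 : ka ≠ kc := by
      rintro rfl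
      exact hac (pair_inj ha.1.1 (na.symm.trans nc))
    have e3 : kb ≠ kc := by
      rintro rfl
      exact hbc (pair_inj hb.1.1 (nb.symm.trans nc))
    have hv : ∀ y, v ∈ ({v, y} : Finset P) := fun y => mem_insert_self _ _
    rcases h.three ka hka kb hkb kc hkc e1 e2 e3 v (by rw [na]; exact hv a)
      (by rw [nb]; exact hv b) (by rw [nc]; exact hv c) with h1 | h1 | h1
    · rw [na, nb] at h1
      exact hab (pair_inj ha.1.1 h1)
    · rw [na, nc] at h1
      exact hac (pair_inj ha.1.1 h1)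
    · rw [nb, nc] at h1
      exact hbc (pair_inj hb.1.1 h1)
  have hsub : N ⊆ (lv P i).erase v := filter_subset _ _
  rw [gx_sub hsub (fun y hy hy' => by
    by_contra h1
    exact hy' (mem_filter.2 ⟨hy, h1⟩))]
  refine natDegree_sum_le_of_forall_le _ _ fun S hS => ?_
  rw [mem_powerset] at hS
  have h1 : (∏ y ∈ S, -(C (Df i {v, y}) * X)).natDegree ≤ S.card := by
    refine (natDegree_prod_le _ _).trans ?_
    refine (sum_le_card_nsmul _ _ 1 fun y _ => ?_).trans (by rw [smul_eq_mul, mul_one])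
    rw [natDegree_neg]
    exact (natDegree_C_mul_le _ _).trans natDegree_X_le
  refine natDegree_mul_le.trans ?_
  rcases S.eq_empty_or_nonempty with rfl | ⟨y0, hy0⟩
  · have h2 : (mp (Df i) (lv P i \ insert v ∅)).natDegree ≤ 1 := by
      have h3 := h.hs.Fx_natDegree (insert v (∅ : Finset P))
      rw [insert_empty_eq, card_singleton] at h3
      exact h3
    rw [card_empty] at h1
    omega
  · have hyN := hS hy0
    rw [hN, mem_filter, mem_erase] at hyN
    obtain ⟨k0, hk0, n0⟩ := key y0 hyN.2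
    have h2 : mp (Df i) (lv P i \ insert v S) = 1 := by
      refine h.hs.Fx_one (T := insert v S) hk0 ?_ ?_
      · intro w hw
        rw [n0, mem_insert, mem_singleton] at hw
        rcases hw with rfl | rfl
        · exact mem_insert_self _ _
        · exact mem_insert_of_mem hy0
      · intro x hx hn
        obtain ⟨w, hw, hwT⟩ := not_disjoint_iff.1 hn
        have hv0 : v ∈ ns i k0 := by
          rw [n0]
          exact mem_insert_self _ _
        rcases mem_insert.1 hwT with rfl | hwS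
        · exact h.hs.star_site hx hk0 hw hv0
        · have hwN := hS hwS
          rw [hN, mem_filter, mem_erase] at hwN
          obtain ⟨kw, hkw, nw⟩ := key w hwN.2
          have e1 : w ∈ ns i kw := by
            rw [nw]
            exact mem_insert_of_mem (mem_singleton_self _)
          have e2 : v ∈ ns i kw := by
            rw [nw]
            exact mem_insert_self _ _
          exact (h.hs.star_site hx hkw hw e1).trans (h.hs.star_site hkw hk0 e2 hv0)
    rw [h2, natDegree_one]
    have h3 := card_le_card hS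
    omega

/-- the coefficient of `X ^ 3` -/
lemma coeff_of_deg {Q B D : ℤ[X]} (h : 2 * X ^ 2 * (1 + X) * Q = D - 2 * X * B)
    (hD : D.natDegree ≤ 2) (hB : B.natDegree ≤ 2) : Q.coeff 0 = -B.coeff 2 := by
  have h3 : 2 * X ^ 2 * (1 + X) * Q = C 2 * ((Q + X * Q) * X ^ 2) := by
    rw [map_ofNat]
    ring
  have h4 : D - 2 * X * B = D - C 2 * (X * B) := by
    rw [map_ofNat]
    ring
  rw [h3, h4] at h
  have h5 : ∀ m, 2 * (Q.coeff (m + 1) + Q.coeff m) = -(2 * B.coeff (m + 2)) := by
    intro m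
    have h6 := congrArg (fun p : ℤ[X] => p.coeff (m + 1 + 2)) h
    simp only [coeff_C_mul, coeff_mul_X_pow, coeff_add, coeff_X_mul, coeff_sub] at h6
    rw [coeff_eq_zero_of_natDegree_lt (p := D) (by omega)] at h6
    linarith
  have h6 : ∀ m, Q.coeff 1 = (-1) ^ m * Q.coeff (m + 1) := by
    intro m
    induction m with
    | zero => rw [pow_zero, one_mul]
    | succ m ih =>
      have h7 := h5 (m + 1)
      rw [coeff_eq_zero_of_natDegree_lt (p := B) (by omega)] at h7
      have h8 : Q.coeff (m + 1) = -Q.coeff (m + 1 + 1) := by linarith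
      rw [ih, h8, pow_succ]
      ring
  have h7 : Q.coeff 1 = 0 := by
    rw [h6 Q.natDegree, coeff_eq_zero_of_natDegree_lt (Nat.lt_succ_self _), mul_zero]
  have h8 := h5 0
  rw [zero_add, h7] at h8
  linarith

/-- THE NUMBER OF QUADS -/
theorem HT.card_QD (h : HT r i K psi) (h3 : ∀ x : P, lev x + 2 = i → dn i x ≤ 3) :
    ((QD P i).card : ℤ) = -(∑ z ∈ PD P i, Ek i K ((uc z).biUnion (ns i)) 2) +
      ∑ z ∈ PU P i, Ek i K ((dc z).biUnion (ns i)) 2 := by
  have hH := h.hs.H
  have hp := poly hH h.hs.hi h3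
  set Q : ℤ[X] := ∑ z ∈ QD P i, Fx i ((uc z).biUnion (ns i)) with hQ
  set B : ℤ[X] := ∑ z ∈ PD P i, Fx i ((uc z).biUnion (ns i)) -
    ∑ z ∈ PU P i, Fx i ((dc z).biUnion (ns i)) with hB
  have hQ0 : Q.coeff 0 = ((QD P i).card : ℤ) := by
    rw [hQ, finsetSum_coeff]
    unfold Fx
    simp only [St.coeff_zero_mp, sum_const, nsmul_eq_mul, mul_one]
  have hB2 : B.coeff 2 = ∑ z ∈ PD P i, Ek i K ((uc z).biUnion (ns i)) 2 -
      ∑ z ∈ PU P i, Ek i K ((dc z).biUnion (ns i)) 2 := by
    rw [hB, coeff_sub, finsetSum_coeff, finsetSum_coeff]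
    simp only [h.hs.Fx_coeff]
  have d1 : (1 : ℤ[X]).natDegree ≤ 2 := by
    rw [natDegree_one]
    exact Nat.zero_le 2
  have dsub : ∀ {p q : ℤ[X]}, p.natDegree ≤ 2 → q.natDegree ≤ 2 → (p - q).natDegree ≤ 2 :=
    fun hp hq => (natDegree_sub_le _ _).trans (max_le hp hq)
  have dadd : ∀ {p q : ℤ[X]}, p.natDegree ≤ 2 → q.natDegree ≤ 2 → (p + q).natDegree ≤ 2 :=
    fun hp hq => (natDegree_add_le _ _).trans (max_le hp hq)
  have dtwo : ∀ {p : ℤ[X]}, p.natDegree ≤ 2 → (2 * p).natDegree ≤ 2 := by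
    intro p hp
    rw [two_mul]
    exact dadd hp hp
  have dthree : (3 : ℤ[X]).natDegree ≤ 2 := by
    rw [natDegree_ofNat]
    exact Nat.zero_le 2
  have hone : ∀ v : P, (Fx i {v}).natDegree ≤ 2 := by
    intro v
    have h4 := h.hs.Fx_natDegree ({v} : Finset P)
    rw [card_singleton] at h4
    omega
  have hns : ∀ x ∈ dbL P i ∪ dbU P i, (Fx i (ns i x)).natDegree ≤ 2 := by
    intro x hx
    have h4 := h.hs.Fx_natDegree (ns i x)
    rw [ns_card hx] at h4
    exact h4
  have hBd : B.natDegree ≤ 2 := by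
    refine dsub ?_ ?_
    · refine natDegree_sum_le_of_forall_le _ _ fun z hz => ?_
      obtain ⟨h1, h2, w, hw, h4⟩ := Win.mem_PD.1 hz
      have hl := lev_cov hH hw
      have h5 : w ∈ dbL P i := mem_dbL.2 ⟨by omega, h4⟩
      rw [PD_site hz hw hH, ← ns_L h5]
      exact hns w (mem_union_left _ h5)
    · refine natDegree_sum_le_of_forall_le _ _ fun z hz => ?_
      obtain ⟨h1, h2, w, hw, h4⟩ := Win.mem_PU.1 hz
      have hl := lev_cov hH hw
      have h5 : w ∈ dbU P i := mem_dbU.2 ⟨by omega, h4⟩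
      obtain ⟨w', hw'⟩ := card_eq_one.1 h2
      have h6 : w = w' := by
        have : w ∈ dc z := mem_dc.2 hw
        rw [hw', mem_singleton] at this
        exact this
      subst h6
      rw [hw', singleton_biUnion]
      exact hns w (mem_union_right _ h5)
  have hfin := coeff_of_deg (Q := Q) (B := B)
    (D := ∑ x ∈ dbL P i ∪ dbU P i, (∑ a ∈ ns i x, Fx i {a} + Fx i (ns i x) - 3) +
      2 * ∑ h ∈ sgl P i, (Fx i (ns i h) - 1) - 2 * ∑ v ∈ lv P i, (St.gx (Df i) (lv P i) v - 1))
    (sub_eq_zero.1 hp).symm ?_ hBd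
  · rw [hQ0, hB2] at hfin
    rw [hfin]
    ring
  · refine dsub (dadd ?_ (dtwo ?_)) (dtwo ?_)
    · refine natDegree_sum_le_of_forall_le _ _ fun x hx => dsub (dadd ?_ (hns x hx)) dthree
      exact natDegree_sum_le_of_forall_le _ _ fun a _ => hone a
    · refine natDegree_sum_le_of_forall_le _ _ fun x hx => dsub ?_ d1
      rw [mem_sgl] at hx
      obtain ⟨v, hv⟩ := card_eq_one.1 hx.2
      rw [hv]
      exact hone v
    · exact natDegree_sum_le_of_forall_le _ _ fun v _ => dsub (h.gx_deg v) d1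

end Pool.Agent.GaussPoset.EK
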