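import Pool.Agent.W_448e_h97.EI
import Pool.Agent.W_448e_h97.EJ

/-! Case B: no quads, and no pendant between the two stars of a component with six sites
(MP_448cb3_co). -/

namespace Pool.Agent.GaussPoset.EK

set_option linter.unusedSectionVars false

open Finset Win St Polynomial Wd

universe u

variable {P : Type u} [Fintype P] [PartialOrder P] [DecidableEq P] {r i j : ℕ}

variable {ι : Type*} [DecidableEq ι] {κ : P → ι} {a : ι}

variable {m : ℕ} {x : ℕ → P} {c : ℕ → ℤ} {β : ℤ}

variable {K : Finset P} {psi : P → P} {T : Finset P}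

/-- the four possible pairs of a component with two stars -/
lemma Row.ends4 (W : Row i κ a m x c β) (R : Red P i K psi) (H : Gr P r) (hκ : Split (i + 1) κ)
    (hp : Pat6 m c β) {k : P} (hk : k ∈ K) (hka : κ k = a) :
    (ns i k = {x 0, x 1} ∨ ns i k = {x 1, x 2}) ∨
      (ns i k = {x (m - 2), x (m - 1)} ∨ ns i k = {x (m - 1), x m}) := by
  obtain ⟨h1, h2, _, _, _, _, h3⟩ := hp
  obtain ⟨p, q, h6, h7, h8, h9⟩ := W.pair R H hκ hk hka
  rcases h9 with ⟨h9, h10⟩ | ⟨_, _, _, h10⟩
  · have hp : p = 0 ∨ p = 1 ∨ p = m - 2 ∨ p = m - 1 := by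
      by_contra h11
      exact h10 (h3 p (by omega) (by omega))
    subst h9
    rcases hp with hp | hp | hp | hp
    · subst hp
      exact Or.inl (Or.inl h8)
    · subst hp
      exact Or.inl (Or.inr h8)
    · subst hp
      rw [show m - 2 + 1 = m - 1 by omega] at h8
      exact Or.inr (Or.inl h8)
    · subst hp
      rw [show m - 1 + 1 = m by omega] at h8
      exact Or.inr (Or.inr h8)
  · exact absurd h2 h10

/-- the sites of the pairs at the left end -/
lemma Row.left_site (W : Row i κ a m x c β) (hm : 5 ≤ m) {S : Finset P}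
    (hS : S = {x 0, x 1} ∨ S = {x 1, x 2}) {q : ℕ} (hq : q ≤ m) (h : x q ∈ S) : q ≤ 2 := by
  rcases hS with rfl | rfl <;> rw [mem_insert, mem_singleton] at h <;>
    rcases h with h | h <;> (have := W.inj _ _ hq (by omega) h; omega)

/-- the sites of the pairs at the right end -/
lemma Row.right_site (W : Row i κ a m x c β) (hm : 5 ≤ m) {S : Finset P}
    (hS : S = {x (m - 2), x (m - 1)} ∨ S = {x (m - 1), x m}) {q : ℕ} (hq : q ≤ m)
    (h : x q ∈ S) : m ≤ q + 2 := by
  rcases hS with rfl | rfl <;> rw [mem_insert, mem_singleton] at h <;>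
    rcases h with h | h <;> (have := W.inj _ _ hq (by omega) h; omega)

/-- two stars: of three unmatched elements with a common site two have the same sites -/
theorem Row.three6 (W : Row i κ a m x c β) (R : Red P i K psi) (H : Gr P r)
    (hκ : Split (i + 1) κ) (hp : Pat6 m c β) {k k' k'' v : P} (hk : k ∈ K) (hk' : k' ∈ K)
    (hk'' : k'' ∈ K) (h : κ k = a) (h' : κ k' = a) (h'' : κ k'' = a) (hv : v ∈ ns i k)
    (hv' : v ∈ ns i k') (hv'' : v ∈ ns i k'') :
    ns i k = ns i k' ∨ ns i k = ns i k'' ∨ ns i k' = ns i k'' := by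
  have hm := hp.1
  obtain ⟨q, hq, rfl⟩ := W.surj v (kap_ns' H hκ (R.sub hk) hv).2
    ((kap_ns' H hκ (R.sub hk) hv).1.trans h)
  rcases W.ends4 R H hκ hp hk h with e1 | e1 <;> rcases W.ends4 R H hκ hp hk' h' with e2 | e2 <;>
    rcases W.ends4 R H hκ hp hk'' h'' with e3 | e3
  · rcases e1 with e1 | e1 <;> rcases e2 with e2 | e2 <;> rcases e3 with e3 | e3 <;>
      rw [e1, e2, e3] <;> simp
  · have f1 := W.left_site hm e1 hq hv
    have f2 := W.right_site hm e3 hq hv''
    omega
  · have f1 := W.left_site hm e1 hq hv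
    have f2 := W.right_site hm e2 hq hv'
    omega
  · have f1 := W.left_site hm e1 hq hv
    have f2 := W.right_site hm e2 hq hv'
    omega
  · have f1 := W.left_site hm e2 hq hv'
    have f2 := W.right_site hm e1 hq hv
    omega
  · have f1 := W.left_site hm e2 hq hv'
    have f2 := W.right_site hm e1 hq hv
    omega
  · have f1 := W.left_site hm e3 hq hv''
    have f2 := W.right_site hm e1 hq hv
    omega
  · rcases e1 with e1 | e1 <;> rcases e2 with e2 | e2 <;> rcases e3 with e3 | e3 <;>
      rw [e1, e2, e3] <;> simp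

/-- the context `HT` from the rows -/
theorem Red.toHT (R : Red P i K psi) (H : Gr P r) (hi : i ≤ r) (hκ : Split (i + 1) κ)
    (hs : ∀ a : ι, Small i κ a ∨ ∃ (m : ℕ) (x : ℕ → P) (c : ℕ → ℤ) (β : ℤ),
      Row i κ a m x c β ∧ Pat6 m c β) : HT r i K psi := by
  refine ⟨R.toHS H hi hκ hs, R, ?_⟩
  intro k hk k' hk' k'' hk'' h1 h2 h3 v hv hv' hv''
  have e := kap_ns H hκ (R.sub hk) hv
  have e' := kap_ns H hκ (R.sub hk') hv'
  have e'' := kap_ns H hκ (R.sub hk'') hv''
  rcases hs (κ v) with h4 | ⟨m, w, c, β, W, hp⟩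
  · exact R.three_of_small H hκ h4 hk hk' hk'' e.symm e'.symm e''.symm h1 h2 h3 hv hv' hv''
  · exact W.three6 R H hκ hp hk hk' hk'' e.symm e'.symm e''.symm hv hv' hv''

/-- at most one star meets `T` -/
lemma HS.Ek2_zero (h : HS r i K psi)
    (hT : ∀ k ∈ K, ∀ k' ∈ K, ¬ Disjoint (ns i k) T → ¬ Disjoint (ns i k') T →
      star i K k = star i K k') : Ek i K T 2 = 0 := by
  by_cases hex : ∃ k ∈ K, ¬ Disjoint (ns i k) T
  · obtain ⟨k, hk, hkT⟩ := hex
    exact (h.one (s := star i K k) (fun x hx hxT => hT x hx k hk hxT hkT)).2.2 2 le_rfl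
  · push Not at hex
    exact (h.none hex).2 2 (by norm_num)

/-- a small component -/
lemma Red.Ek2_small (R : Red P i K psi) (h : HS r i K psi) (hκ : Split (i + 1) κ)
    (hs : Small i κ a) (hT : ∀ v ∈ T, κ v = a) : Ek i K T 2 = 0 := by
  refine h.Ek2_zero ?_
  intro k hk k' hk' hkT hkT'
  have key : ∀ k ∈ K, ¬ Disjoint (ns i k) T → κ k = a := by
    intro k hk hkT
    obtain ⟨v, hv, hvT⟩ := not_disjoint_iff.1 hkT
    rw [← kap_ns h.H hκ (R.sub hk) hv]
    exact hT v hvT
  rw [h.star_eq hk hk']
  exact R.same_of_small h.H h.hi hκ hs hk hk' (key k hk hkT) (key k' hk' hkT')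

section two

variable (W : Row i κ a m x c β) (R : Red P i K psi) (h : HS r i K psi) (hκ : Split (i + 1) κ)
  (hp : Pat6 m c β)

include W R h hκ hp

/-- an unmatched element which meets the edge `p` -/
lemma Row.meet {p : ℕ} (hpm : p + 1 ≤ m) {k : P} (hk : k ∈ K)
    (hkT : ¬ Disjoint (ns i k) {x p, x (p + 1)}) :
    (x 1 ∈ ns i k ∧ p ≤ 2 ∧ (ns i k = {x 0, x 1} ∨ ns i k = {x 1, x 2})) ∨
      (x (m - 1) ∈ ns i k ∧ m ≤ p + 3 ∧
        (ns i k = {x (m - 2), x (m - 1)} ∨ ns i k = {x (m - 1), x m})) := by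
  have hm := hp.1
  obtain ⟨v, hv, hvT⟩ := not_disjoint_iff.1 hkT
  rw [mem_insert, mem_singleton] at hvT
  obtain ⟨q, hq, hqp, hvq⟩ : ∃ q, q ≤ m ∧ (q = p ∨ q = p + 1) ∧ v = x q := by
    rcases hvT with h1 | h1
    · exact ⟨p, by omega, Or.inl rfl, h1⟩
    · exact ⟨p + 1, by omega, Or.inr rfl, h1⟩
  subst hvq
  have hka : κ k = a := by
    rw [← kap_ns h.H hκ (R.sub hk) hv]
    exact W.kap q hq
  rcases W.ends4 R h.H hκ hp hk hka with e | e
  · left
    have f := W.left_site hm e hq hv
    refine ⟨?_, by omega, e⟩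
    rcases e with e | e <;> rw [e] <;> simp
  · right
    have f := W.right_site hm e hq hv
    refine ⟨?_, by omega, e⟩
    rcases e with e | e <;> rw [e] <;> simp

/-- an edge which does not meet both stars -/
lemma Row.Ek2_far {p : ℕ} (hpm : p + 1 ≤ m) (hn : ¬ (p = 2 ∧ m = 5)) :
    Ek i K {x p, x (p + 1)} 2 = 0 := by
  have hm := hp.1
  refine h.Ek2_zero ?_
  intro k hk k' hk' hkT hkT'
  rcases W.meet R h hκ hp hpm hk hkT with ⟨e1, e2, _⟩ | ⟨e1, e2, _⟩ <;>
    rcases W.meet R h hκ hp hpm hk' hkT' with ⟨f1, f2, _⟩ | ⟨f1, f2, _⟩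
  · exact h.star_site hk hk' e1 f1
  · omega
  · omega
  · exact h.star_site hk hk' e1 f1

/-- the edge between the two stars of a component with six sites -/
lemma Row.Ek2_mid (hm5 : m = 5) : Ek i K {x 2, x 3} 2 = 1 := by
  classical
  have hp' := hp
  obtain ⟨hm, hb, h0, h1, h3, h4, h5⟩ := hp'
  subst hm5
  have d01 : Df i {x 0, x 1} = 1 := by
    rw [W.df 0 1 (by omega) (by omega), if_pos rfl, h0]
  have d45 : Df i {x 4, x 5} = 1 := by
    rw [W.df 4 5 (by omega) (by omega), if_pos rfl]
    exact h4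
  obtain ⟨kL, hkL, nL⟩ := R.exists_of_Df (T := {x 0, x 1}) (by rw [d01]; norm_num)
  obtain ⟨kR, hkR, nR⟩ := R.exists_of_Df (T := {x 4, x 5}) (by rw [d45]; norm_num)
  have hinj : ∀ p q, p ≤ 5 → q ≤ 5 → x p = x q → p = q := W.inj
  have hne : star i K kL ≠ star i K kR := by
    rw [Ne, h.star_eq hkL hkR, not_not, nL, nR, disjoint_left]
    intro v hv hv'
    rw [mem_insert, mem_singleton] at hv hv'
    rcases hv with rfl | rfl <;> rcases hv' with e | e <;>
      (have := hinj _ _ (by omega) (by omega) e; omega)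
  have hJ : ∀ k ∈ K, ¬ Disjoint (ns i k) {x 2, x 3} →
      star i K k = star i K kL ∨ star i K k = star i K kR := by
    intro k hk hkT
    rcases W.meet R h hκ hp (p := 2) (by omega) hk hkT with ⟨e1, _, _⟩ | ⟨e1, _, _⟩
    · left
      exact h.star_site hk hkL e1 (by rw [nL]; simp)
    · right
      exact h.star_site hk hkR e1 (by rw [nR]; simp)
  rw [(h.two hne hJ).2.2.1]
  have sL : sst i K {x 2, x 3} (star i K kL) = 1 := by
    rw [sst_eq, ← d01, ← fib_K R.mat R.sub]
    refine sum_congr ?_ (fun _ _ => rfl)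
    refine filter_congr (fun k hk => ?_)
    constructor
    · rintro ⟨e1, e2⟩
      have e3 := (h.star_eq hk hkL).1 e1
      have hka : κ k = a := by
        rw [star_comp h.H hκ R.sub hk hkL e3, ← kap_ns h.H hκ (R.sub hkL) (v := x 0)
          (by rw [nL]; simp)]
        exact W.kap 0 (by omega)
      rcases W.ends4 R h.H hκ hp hk hka with (e4 | e4) | (e4 | e4)
      · exact e4
      · exfalso
        rw [e4, disjoint_left] at e2
        exact e2 (a := x 2) (by simp) (by simp)
      · exfalso
        apply e3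
        rw [e4, nL, disjoint_left]
        intro v hv hv'
        rw [mem_insert, mem_singleton] at hv hv'
        rcases hv with rfl | rfl <;> rcases hv' with e | e <;>
          (have := hinj _ _ (by omega) (by omega) e; omega)
      · exfalso
        apply e3
        rw [e4, nL, disjoint_left]
        intro v hv hv'
        rw [mem_insert, mem_singleton] at hv hv'
        rcases hv with rfl | rfl <;> rcases hv' with e | e <;>
          (have := hinj _ _ (by omega) (by omega) e; omega)
    · intro e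
      refine ⟨(h.star_eq hk hkL).2 ?_, ?_⟩
      · rw [e, nL]
        exact not_disjoint_iff.2 ⟨x 0, by simp, by simp⟩
      · rw [e, disjoint_left]
        intro v hv hv'
        rw [mem_insert, mem_singleton] at hv hv'
        rcases hv with rfl | rfl <;> rcases hv' with e | e <;>
          (have := hinj _ _ (by omega) (by omega) e; omega)
  have sR : sst i K {x 2, x 3} (star i K kR) = 1 := by
    rw [sst_eq, ← d45, ← fib_K R.mat R.sub]
    refine sum_congr ?_ (fun _ _ => rfl)
    refine filter_congr (fun k hk => ?_)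
    constructor
    · rintro ⟨e1, e2⟩
      have e3 := (h.star_eq hk hkR).1 e1
      have hka : κ k = a := by
        rw [star_comp h.H hκ R.sub hk hkR e3, ← kap_ns h.H hκ (R.sub hkR) (v := x 4)
          (by rw [nR]; simp)]
        exact W.kap 4 (by omega)
      rcases W.ends4 R h.H hκ hp hk hka with (e4 | e4) | (e4 | e4)
      · exfalso
        apply e3
        rw [e4, nR, disjoint_left]
        intro v hv hv'
        rw [mem_insert, mem_singleton] at hv hv'
        rcases hv with rfl | rfl <;> rcases hv' with e | e <;>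
          (have := hinj _ _ (by omega) (by omega) e; omega)
      · exfalso
        apply e3
        rw [e4, nR, disjoint_left]
        intro v hv hv'
        rw [mem_insert, mem_singleton] at hv hv'
        rcases hv with rfl | rfl <;> rcases hv' with e | e <;>
          (have := hinj _ _ (by omega) (by omega) e; omega)
      · exfalso
        rw [e4, disjoint_left] at e2
        exact e2 (a := x 3) (by simp) (by simp)
      · exact e4
    · intro e
      refine ⟨(h.star_eq hk hkR).2 ?_, ?_⟩
      · rw [e, nR]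
        exact not_disjoint_iff.2 ⟨x 4, by simp, by simp⟩
      · rw [e, disjoint_left]
        intro v hv hv'
        rw [mem_insert, mem_singleton] at hv hv'
        rcases hv with rfl | rfl <;> rcases hv' with e | e <;>
          (have := hinj _ _ (by omega) (by omega) e; omega)
  rw [sL, sR]
  norm_num

end two

end Pool.Agent.GaussPoset.EK
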