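import Pool.Agent.W_448e_h97.EL

/-! Case B: no quads (MP_448cb3_co). -/

namespace Pool.Agent.GaussPoset.EK

set_option linter.unusedSectionVars false

open Finset Win St Polynomial Wd

universe u

variable {P : Type u} [Fintype P] [PartialOrder P] [DecidableEq P] {r i j : ℕ}

variable {m : ℕ} {x : ℕ → P} {c : ℕ → ℤ} {β : ℤ} {t : Tops P}

variable {K : Finset P} {psi : P → P} {T : Finset P}

/-- the context in case B -/
theorem NJ.HT (h : NJ P r j) (hj : 2 ≤ j) (R : Red P j K psi) : HT r j K psi := by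
  refine R.toHT (κ := topOf) h.g.H (by have := h.hr; omega) h.split (fun t => ?_)
  obtain ⟨m, x, c, β, B⟩ := NJ.rowB h hj t
  rcases B.small h.g.H h.split with h1 | h1
  · exact Or.inl h1
  · exact Or.inr ⟨m, x, c, β, B.row, h1⟩

/-- a double lower element of a component with two stars is over an edge -/
lemma RowB.dbL_edge (B : RowB P j t m x c β) (H : Gr P r) (hκ : Split (j + 1) (topOf : P → Tops P))
    (hp : Pat6 m c β) {y : P} (hy : y ∈ dbL P j) (hyt : topOf y = t) :
    ∃ p, p + 1 ≤ m ∧ uc y = {x p, x (p + 1)} := by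
  have hyD : y ∈ dbL P j ∪ dbU P j := mem_union_left _ hy
  obtain ⟨u, v, huv, hns⟩ := card_eq_two.1 (mem_dbL.1 hy).2
  have hu : u ∈ uc y := by rw [hns]; exact mem_insert_self _ _
  have hv : v ∈ uc y := by rw [hns]; exact mem_insert_of_mem (mem_singleton_self _)
  have hu' : u ∈ ns j y := by rw [ns_L hy]; exact hu
  have hv' : v ∈ ns j y := by rw [ns_L hy]; exact hv
  obtain ⟨p, hp1, rfl⟩ := B.row.surj u (kap_ns' H hκ hyD hu').2 ((kap_ns' H hκ hyD hu').1.trans hyt)
  obtain ⟨q, hq1, rfl⟩ := B.row.surj v (kap_ns' H hκ hyD hv').2 ((kap_ns' H hκ hyD hv').1.trans hyt)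
  have hpq : p ≠ q := by
    rintro rfl
    exact huv rfl
  have hβ : β = 0 := hp.2.1
  have key : ∀ p q, p < q → q ≤ m → x p ∈ uc y → x q ∈ uc y → q = p + 1 := by
    intro p q hpq hq hpy hqy
    by_contra hne
    have h1 := B.row.df p q hpq hq
    rw [if_neg hne, hβ, ite_self] at h1
    have hne' : x p ≠ x q := fun h2 => by
      have := B.row.inj p q (by omega) hq h2
      omega
    rw [Df_pair H (B.row.lev_x p (by omega)) hne'] at h1
    have h2 := B.ucv_x p q hpq hq
    rw [if_neg hne] at h2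
    have h3 := StA_dcv_pos (mem_uc.1 hpy) (mem_uc.1 hqy)
    omega
  rcases Nat.lt_or_ge p q with h1 | h1
  · have h2 := key p q h1 hq1 hu hv
    subst h2
    exact ⟨p, hq1, hns⟩
  · have h2 := key q p (by omega) hp1 hv hu
    subst h2
    exact ⟨q, hp1, by rw [hns, pair_comm]⟩

/-- a double upper element is over an edge -/
lemma RowB.dbU_edge (B : RowB P j t m x c β) (H : Gr P r) (hκ : Split (j + 1) (topOf : P → Tops P))
    {y : P} (hy : y ∈ dbU P j) (hyt : topOf y = t) :
    ∃ p, p + 1 ≤ m ∧ dc y = {x p, x (p + 1)} := by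
  have hyD : y ∈ dbL P j ∪ dbU P j := mem_union_right _ hy
  obtain ⟨u, v, huv, hns⟩ := card_eq_two.1 (mem_dbU.1 hy).2
  have hu : u ∈ dc y := by rw [hns]; exact mem_insert_self _ _
  have hv : v ∈ dc y := by rw [hns]; exact mem_insert_of_mem (mem_singleton_self _)
  have hu' : u ∈ ns j y := by rw [ns_U hy]; exact hu
  have hv' : v ∈ ns j y := by rw [ns_U hy]; exact hv
  obtain ⟨p, hp1, rfl⟩ := B.row.surj u (kap_ns' H hκ hyD hu').2 ((kap_ns' H hκ hyD hu').1.trans hyt)
  obtain ⟨q, hq1, rfl⟩ := B.row.surj v (kap_ns' H hκ hyD hv').2 ((kap_ns' H hκ hyD hv').1.trans hyt)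
  have hpq : p ≠ q := by
    rintro rfl
    exact huv rfl
  have key : ∀ p q, p < q → q ≤ m → x p ∈ dc y → x q ∈ dc y → q = p + 1 := by
    intro p q hpq hq hpy hqy
    by_contra hne
    have h2 := B.ucv_x p q hpq hq
    rw [if_neg hne] at h2
    have h3 := StA_ucv_pos (mem_dc.1 hpy) (mem_dc.1 hqy)
    omega
  rcases Nat.lt_or_ge p q with h1 | h1
  · have h2 := key p q h1 hq1 hu hv
    subst h2
    exact ⟨p, hq1, hns⟩
  · have h2 := key q p (by omega) hp1 hv hu
    subst h2
    exact ⟨q, hp1, by rw [hns, pair_comm]⟩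

section main

variable (h : NJ P r j) (hj : 2 ≤ j) (R : Red P j K psi)

include h hj R

/-- the value of a pendant -/
lemma NJ.pd_val {w : P} (hw : w ∈ dbL P j) : 0 ≤ Ek j K (uc w) 2 ∧
    ∀ (m : ℕ) (x : ℕ → P) (c : ℕ → ℤ) (β : ℤ), RowB P j (topOf w) m x c β → Pat6 m c β → m = 5 →
      uc w = {x 2, x 3} → Ek j K (uc w) 2 = 1 := by
  have hT := NJ.HT h hj R
  have hwD : w ∈ dbL P j ∪ dbU P j := mem_union_left _ hw
  refine ⟨?_, ?_⟩
  · obtain ⟨m, x, c, β, B⟩ := NJ.rowB h hj (topOf w)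
    rcases B.small h.g.H h.split with h1 | h1
    · refine (R.Ek2_small hT.hs h.split h1 ?_).ge
      intro v hv
      rw [← ns_L hw] at hv
      exact kap_ns h.g.H h.split hwD hv
    · obtain ⟨p, hp, he⟩ := B.dbL_edge h.g.H h.split h1 hw rfl
      rw [he]
      by_cases h2 : p = 2 ∧ m = 5
      · obtain ⟨rfl, h3⟩ := h2
        rw [B.row.Ek2_mid R hT.hs h.split h1 h3]
        norm_num
      · exact (B.row.Ek2_far R hT.hs h.split h1 hp h2).ge
  · intro m x c β B h1 h3 he
    rw [he]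
    exact B.row.Ek2_mid R hT.hs h.split h1 h3

/-- the value of an upper pendant -/
lemma NJ.pu_val {z u : P} (hz : z ∈ PU P j) (hu : u ⋖ z) (hu2 : (dc u).card = 2) :
    Ek j K (dc u) 2 = 0 := by
  have hT := NJ.HT h hj R
  obtain ⟨h1, h2, _⟩ := Win.mem_PU.1 hz
  have hl := lev_cov h.g.H hu
  have hw : u ∈ dbU P j := mem_dbU.2 ⟨by omega, hu2⟩
  have hwD : u ∈ dbL P j ∪ dbU P j := mem_union_right _ hw
  obtain ⟨m, x, c, β, B⟩ := NJ.rowB h hj (topOf u)
  rcases B.small h.g.H h.split with h3 | h3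
  · refine R.Ek2_small hT.hs h.split h3 ?_
    intro v hv
    rw [← ns_U hw] at hv
    exact kap_ns h.g.H h.split hwD hv
  · obtain ⟨p, hp, he⟩ := B.dbU_edge h.g.H h.split hw rfl
    rw [he]
    refine B.row.Ek2_far R hT.hs h.split h3 hp ?_
    rintro ⟨rfl, h4⟩
    have h5 : x 2 ∈ dc u := by rw [he]; exact mem_insert_self _ _
    have h6 : x (2 + 1) ∈ dc u := by rw [he]; exact mem_insert_of_mem (mem_singleton_self _)
    have h7 := B.pu 2 (by omega) (by omega) u (mem_dc.1 h5) (mem_dc.1 h6) z hu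
    omega

/-- NO QUADS in case B, and no pendant between the two stars of a component with six sites -/
theorem NJ.quads_aux : T6N.QD P j = ∅ ∧ ∀ z ∈ PD P j, ∀ w, z ⋖ w → (uc w).card = 2 →
    Ek j K (uc w) 2 = 0 := by
  have hT := NJ.HT h hj R
  have h3 : ∀ x : P, lev x + 2 = j → dn j x ≤ 3 := by
    intro x hx
    have h4 := dn_le_three h.g.H (k := lev x) (h.g.good (lev x + 1) (by omega)) rfl
    rw [hx] at h4
    exact h4
  have hc := hT.card_QD h3
  have hPU : ∑ z ∈ PU P j, Ek j K ((dc z).biUnion (ns j)) 2 = 0 := by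
    refine sum_eq_zero (fun z hz => ?_)
    obtain ⟨h1, h2, u, hu, hu2⟩ := Win.mem_PU.1 hz
    have hl := lev_cov h.g.H hu
    have hw : u ∈ dbU P j := mem_dbU.2 ⟨by omega, hu2⟩
    obtain ⟨u', hu'⟩ := card_eq_one.1 h2
    have h6 : u = u' := by
      have : u ∈ dc z := mem_dc.2 hu
      rw [hu', mem_singleton] at this
      exact this
    subst h6
    rw [hu', singleton_biUnion, ns_U hw]
    exact NJ.pu_val h hj R hz hu hu2
  have hPD : ∀ z ∈ PD P j, 0 ≤ Ek j K ((uc z).biUnion (ns j)) 2 := by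
    intro z hz
    obtain ⟨h1, h2, w, hw, hw2⟩ := Win.mem_PD.1 hz
    have hl := lev_cov h.g.H hw
    rw [T6N.PD_site hz hw h.g.H]
    exact (NJ.pd_val h hj R (mem_dbL.2 ⟨by omega, hw2⟩)).1
  have hsum := sum_nonneg hPD
  rw [hPU, add_zero] at hc
  have hcard : ((T6N.QD P j).card : ℤ) = 0 := by
    have : (0 : ℤ) ≤ (T6N.QD P j).card := by positivity
    linarith
  have hzero : ∑ z ∈ PD P j, Ek j K ((uc z).biUnion (ns j)) 2 = 0 := by linarith
  refine ⟨card_eq_zero.1 (by exact_mod_cast hcard), ?_⟩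
  intro z hz w hw hw2
  have h5 := (sum_eq_zero_iff_of_nonneg hPD).1 hzero z hz
  rw [T6N.PD_site hz hw h.g.H] at h5
  exact h5

end main

/-- NO QUADS in case B -/
theorem NJ.QD_empty (h : NJ P r j) (hj : 2 ≤ j) : T6N.QD P j = ∅ := by
  obtain ⟨K, psi, R⟩ := exists_red P j
  exact (NJ.quads_aux h hj R).1

/-- no pendant between the two stars of a component with six sites -/
theorem NJ.no_mid (h : NJ P r j) (hj : 2 ≤ j) (B : RowB P j t m x c β) (hp : Pat6 m c β)
    (hm : m = 5) {w : P} (hw : uc w = {x 2, x 3}) : pen w = ∅ := by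
  obtain ⟨K, psi, R⟩ := exists_red P j
  have hne : x 2 ≠ x 3 := fun h2 => by
    have := B.row.inj 2 3 (by omega) (by omega) h2
    omega
  have hc : (uc w).card = 2 := by rw [hw, card_pair hne]
  have hx : w ⋖ x 2 := by
    rw [← mem_uc, hw]
    exact mem_insert_self _ _
  have hl := lev_cov h.g.H hx
  have hl2 := B.row.lev_x 2 (by omega)
  have hwL : w ∈ dbL P j := mem_dbL.2 ⟨by omega, hc⟩
  have htop : topOf w = t := by
    rw [← B.row.kap 2 (by omega)]
    exact h.split hx (by omega)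
  rw [eq_empty_iff_forall_notMem]
  intro z hz
  obtain ⟨h1, h2⟩ := mem_pen.1 hz
  have hlz := lev_cov h.g.H h1
  have hPD : z ∈ PD P j := Win.mem_PD.2 ⟨by omega, h2, w, h1, hc⟩
  have h4 := (NJ.quads_aux h hj R).2 z hPD w h1 hc
  have h5 := (NJ.pd_val h hj R hwL).2 m x c β (by rw [htop]; exact B) hp hm hw
  omega

/-- NO QUADS in case B, form `NoQ` -/
theorem NJ.noQ (h : NJ P r j) (hj : 2 ≤ j) : K2.NoQ P (j + 2) := by
  intro z hz y hy y' hy' hne h2 h2'
  by_contra hcon
  push Not at hcon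
  have he := NJ.QD_empty h hj
  have hl := lev_cov h.g.H (mem_uc.1 hy)
  have hl' := lev_cov h.g.H (mem_uc.1 hy')
  have hd : y ∈ dbL P j := mem_dbL.2 ⟨by omega, h2⟩
  have hd' : y' ∈ dbL P j := mem_dbL.2 ⟨by omega, h2'⟩
  have hpair : uc z = {y, y'} := by
    symm
    apply eq_of_subset_of_card_le
    · intro w hw
      rw [mem_insert, mem_singleton] at hw
      rcases hw with rfl | rfl
      · exact hy
      · exact hy'
    · rw [card_pair hne]
      exact uc_card_le h.g.H z
  have hdis : Disjoint (uc y) (uc y') := by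
    rw [disjoint_left]
    intro v hv hv'
    exact hcon v hv hv'
  have hmem : z ∈ T6N.QD P j := by
    rw [T6N.mem_QD]
    refine ⟨hz, by rw [hpair, card_pair hne], ?_⟩
    rw [hpair]
    refine ⟨?_, ?_⟩
    · intro w hw
      rw [mem_insert, mem_singleton] at hw
      rcases hw with rfl | rfl
      · exact mem_union_left _ hd
      · exact mem_union_left _ hd'
    · intro w hw w' hw' hww
      rw [mem_insert, mem_singleton] at hw hw'
      rcases hw with rfl | rfl <;> rcases hw' with rfl | rfl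
      · exact absurd rfl hww
      · rw [ns_L hd, ns_L hd']
        exact hdis
      · rw [ns_L hd, ns_L hd']
        exact hdis.symm
      · exact absurd rfl hww
  rw [he] at hmem
  exact notMem_empty _ hmem

end Pool.Agent.GaussPoset.EK
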